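import Pool.Agent.Lib.HC.L.Defs
import Pool.Agent.Lib.HC.B.Cap

/-!
# PROJECT HC+, statement (b) (helper81)

A real combination `J` of rational endomorphisms is a combination of rational endomorphisms with
real coefficients that are linearly independent over `ℚ`; if `J` kills a rational class, they
kill it.

Also: `RatEnd` is closed under sums, rational multiples, products (`RatEnd.add` ...), `lieAct` is
linear in the endomorphism (`lieAct_add` ...) and multilinear in the forms (`lieM`), and a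
multilinear map is zero if it is zero on the forms with rational values on the lattice
(`eq_zero_of_rat`).
-/

set_option autoImplicit false

noncomputable section

namespace HC

section rat

variable {T : AV}

lemma RatEnd.zero : RatEnd T 0 := fun _ _ =>
  ⟨1, one_ne_zero, by rw [LinearMap.zero_apply, smul_zero]; exact T.L.zero_mem⟩

lemma RatEnd.one : RatEnd T 1 := fun v hv =>
  ⟨1, one_ne_zero, by rw [one_smul]; exact hv⟩

lemma RatEnd.add {X Y : Module.End ℝ T.V} (hX : RatEnd T X) (hY : RatEnd T Y) :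
    RatEnd T (X + Y) := by
  intro v hv
  obtain ⟨N, hN, h1⟩ := hX v hv
  obtain ⟨M, hM, h2⟩ := hY v hv
  refine ⟨M * N, mul_ne_zero hM hN, ?_⟩
  have h : (M * N) • (X + Y) v = M • (N • X v) + N • (M • Y v) := by
    rw [LinearMap.add_apply, smul_add, mul_smul, mul_comm M N, mul_smul]
  rw [h]
  exact T.L.add_mem (nsmul_mem h1 M) (nsmul_mem h2 N)

lemma RatEnd.sum {κ : Type*} (s : Finset κ) {X : κ → Module.End ℝ T.V}
    (h : ∀ i ∈ s, RatEnd T (X i)) : RatEnd T (∑ i ∈ s, X i) := by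
  classical
  induction s using Finset.induction_on with
  | empty => rw [Finset.sum_empty]; exact RatEnd.zero
  | insert i s hi ih =>
    rw [Finset.sum_insert hi]
    exact (h i (Finset.mem_insert_self i s)).add
      (ih fun j hj => h j (Finset.mem_insert_of_mem hj))

lemma RatEnd.qsmul {X : Module.End ℝ T.V} (hX : RatEnd T X) (q : ℚ) :
    RatEnd T ((q : ℝ) • X) := by
  intro v hv
  obtain ⟨N, hN, h1⟩ := hX v hv
  refine ⟨q.den * N, mul_ne_zero q.den_nz hN, ?_⟩
  have h : (q.den * N) • ((q : ℝ) • X) v = q.num • (N • X v) := by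
    rw [LinearMap.smul_apply, ← Nat.cast_smul_eq_nsmul ℝ (q.den * N),
      ← Nat.cast_smul_eq_nsmul ℝ N, ← Int.cast_smul_eq_zsmul ℝ, smul_smul, smul_smul]
    congr 1
    have h3 : ((q.den : ℝ)) * (q : ℝ) = q.num := by
      exact_mod_cast Rat.den_mul_eq_num q
    push_cast
    rw [← h3]
    ring
  rw [h]
  exact T.L.smul_mem _ h1

lemma RatEnd.neg {X : Module.End ℝ T.V} (hX : RatEnd T X) : RatEnd T (-X) := by
  have := hX.qsmul (-1)
  rwa [Rat.cast_neg, Rat.cast_one, neg_smul, one_smul] at this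

lemma RatEnd.sub {X Y : Module.End ℝ T.V} (hX : RatEnd T X) (hY : RatEnd T Y) :
    RatEnd T (X - Y) := by
  rw [sub_eq_add_neg]
  exact hX.add hY.neg

lemma RatEnd.mul {X Y : Module.End ℝ T.V} (hX : RatEnd T X) (hY : RatEnd T Y) :
    RatEnd T (X * Y) := by
  intro v hv
  obtain ⟨N, hN, h1⟩ := hY v hv
  obtain ⟨M, hM, h2⟩ := hX _ h1
  refine ⟨M * N, mul_ne_zero hM hN, ?_⟩
  rw [map_nsmul] at h2
  rw [mul_smul]
  exact h2

lemma RatEnd.comm {X Y : Module.End ℝ T.V} (hX : RatEnd T X) (hY : RatEnd T Y) :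
    RatEnd T (X * Y - Y * X) := (hX.mul hY).sub (hY.mul hX)

/-- `a ∘ X` has rational values on the lattice if `a` has. -/
lemma RatEnd.form {X : Module.End ℝ T.V} (hX : RatEnd T X) {a : T.V →ₗ[ℝ] ℂ}
    (ha : ∀ v ∈ T.L, ∃ x : ℚ, a v = x) : ∀ v ∈ T.L, ∃ x : ℚ, (a ∘ₗ X) v = x := by
  intro v hv
  obtain ⟨N, hN, h1⟩ := hX v hv
  obtain ⟨x, hx⟩ := ha _ h1
  refine ⟨x / N, ?_⟩
  rw [map_nsmul, nsmul_eq_mul] at hx
  have hN' : (N : ℂ) ≠ 0 := Nat.cast_ne_zero.2 hN
  rw [LinearMap.comp_apply]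
  push_cast
  rw [eq_div_iff hN', mul_comm]
  exact hx

end rat

section lie

variable {T : AV} {m : ℕ}

/-- The composition with `X`. -/
def cmp (X : Module.End ℝ T.V) : (T.V →ₗ[ℝ] ℂ) →ₗ[ℂ] (T.V →ₗ[ℝ] ℂ) where
  toFun a := a ∘ₗ X
  map_add' _ _ := rfl
  map_smul' _ _ := rfl

/-- `lieAct X c` as a multilinear map. -/
def lieM (X : Module.End ℝ T.V) (c : Hlg T m) :
    MultilinearMap ℂ (fun _ : Fin m => (T.V →ₗ[ℝ] ℂ)) ℂ :=
  ∑ i, c.toMultilinearMap.compLinearMap
    (Function.update (fun _ => LinearMap.id) i (cmp X) :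
      Fin m → ((T.V →ₗ[ℝ] ℂ) →ₗ[ℂ] (T.V →ₗ[ℝ] ℂ)))

lemma lieM_apply (X : Module.End ℝ T.V) (c : Hlg T m) (a : Fin m → (T.V →ₗ[ℝ] ℂ)) :
    lieM X c a = lieAct X c a := by
  rw [lieM, sum_apply, lieAct]
  refine Finset.sum_congr rfl fun i _ => ?_
  rw [MultilinearMap.compLinearMap_apply]
  refine congrArg c (funext fun j => ?_)
  by_cases h : j = i
  · subst h
    rw [Function.update_self, Function.update_self]
    rfl
  · rw [Function.update_of_ne h, Function.update_of_ne h]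
    rfl

/-- `lieAct` as a real linear function of the endomorphism. -/
def lieX (c : Hlg T m) (a : Fin m → (T.V →ₗ[ℝ] ℂ)) : Module.End ℝ T.V →ₗ[ℝ] ℂ where
  toFun X := lieAct X c a
  map_add' X Y := by
    rw [lieAct, lieAct, lieAct, ← Finset.sum_add_distrib]
    refine Finset.sum_congr rfl fun i _ => ?_
    rw [LinearMap.comp_add]
    exact c.map_update_add a i _ _
  map_smul' r X := by
    rw [lieAct, lieAct, RingHom.id_apply, Complex.real_smul, Finset.mul_sum]
    refine Finset.sum_congr rfl fun i _ => ?_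
    have h : a i ∘ₗ (r • X) = (r : ℂ) • (a i ∘ₗ X) := by
      ext v
      rw [LinearMap.comp_apply, LinearMap.smul_apply, map_smul, LinearMap.smul_apply,
        LinearMap.comp_apply, Complex.real_smul, smul_eq_mul]
    rw [h, c.map_update_smul, smul_eq_mul]

lemma lieX_apply (c : Hlg T m) (a : Fin m → (T.V →ₗ[ℝ] ℂ)) (X : Module.End ℝ T.V) :
    lieX c a X = lieAct X c a := rfl

lemma lieAct_add (X Y : Module.End ℝ T.V) (c : Hlg T m) (a : Fin m → (T.V →ₗ[ℝ] ℂ)) :
    lieAct (X + Y) c a = lieAct X c a + lieAct Y c a := (lieX c a).map_add X Y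

lemma lieAct_smul (r : ℝ) (X : Module.End ℝ T.V) (c : Hlg T m) (a : Fin m → (T.V →ₗ[ℝ] ℂ)) :
    lieAct (r • X) c a = (r : ℂ) * lieAct X c a := by
  have := (lieX c a).map_smul r X
  rw [Complex.real_smul] at this
  exact this

/-- A basis of the lattice. -/
lemma exists_lat_basis (T : AV) : ∃ (ι : Type) (_ : Fintype ι) (b : Module.Basis ι ℝ T.V),
    ∀ i, ∀ v ∈ T.L, ∃ x : ℚ, cfm b i v = x := by
  have : Module.Free ℤ T.L := ZLattice.module_free ℝ T.L
  have : Module.Finite ℤ T.L := ZLattice.module_finite ℝ T.L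
  let B := Module.Free.chooseBasis ℤ T.L
  let ι := Module.Free.ChooseBasisIndex ℤ T.L
  refine ⟨Fin (Fintype.card ι), inferInstance,
    (B.ofZLatticeBasis ℝ T.L).reindex (Fintype.equivFin ι), fun i v hv => ?_⟩
  refine ⟨(B.repr ⟨v, hv⟩ ((Fintype.equivFin ι).symm i) : ℤ), ?_⟩
  have h := B.ofZLatticeBasis_repr_apply ℝ T.L ⟨v, hv⟩ ((Fintype.equivFin ι).symm i)
  rw [cfm, LinearMap.smulRight_apply, Module.Basis.coord_apply, Module.Basis.repr_reindex_apply]
  rw [h]
  simp

/-- A multilinear map is zero if it is zero on the rational forms. -/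
lemma eq_zero_of_rat {F : MultilinearMap ℂ (fun _ : Fin m => (T.V →ₗ[ℝ] ℂ)) ℂ}
    (h : ∀ a : Fin m → (T.V →ₗ[ℝ] ℂ), (∀ i, ∀ v ∈ T.L, ∃ x : ℚ, a i v = x) → F a = 0)
    (a : Fin m → (T.V →ₗ[ℝ] ℂ)) : F a = 0 := by
  classical
  obtain ⟨ι, _, b, hb⟩ := exists_lat_basis T
  have h1 : a = fun j => ∑ i, a j (b i) • cfm b i := funext fun j => expand_form b (a j)
  rw [h1, MultilinearMap.map_sum]
  refine Finset.sum_eq_zero fun s _ => ?_
  rw [F.map_smul_univ (fun j => a j (b (s j))) (fun j => cfm b (s j)), h _ fun j => hb (s j),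
    smul_zero]

/-- The values of `lieAct X c` are rational. -/
lemma lieAct_rat {X : Module.End ℝ T.V} (hX : RatEnd T X) {c : Hlg T m}
    (hc : ∀ a : Fin m → (T.V →ₗ[ℝ] ℂ), (∀ i, ∀ v ∈ T.L, ∃ x : ℚ, a i v = x) →
      ∃ x : ℚ, c a = x) (a : Fin m → (T.V →ₗ[ℝ] ℂ)) (ha : ∀ i, ∀ v ∈ T.L, ∃ x : ℚ, a i v = x) :
    ∃ x : ℚ, lieAct X c a = x := by
  have h : ∀ i, ∃ x : ℚ, c (Function.update a i (a i ∘ₗ X)) = x := by
    intro i
    refine hc _ fun j => ?_
    by_cases hj : j = i
    · subst hj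
      rw [Function.update_self]
      exact hX.form (ha j)
    · rw [Function.update_of_ne hj]
      exact ha j
  choose x hx using h
  refine ⟨∑ i, x i, ?_⟩
  rw [lieAct]
  push_cast
  exact Finset.sum_congr rfl fun i _ => hx i

end lie

/-- Statement (b). -/
theorem tLb : S_Lb := by
  intro T J M hM hJ
  obtain ⟨k, r, Y, hJ'⟩ := Submodule.mem_span_set'.1 hJ
  let W : Submodule ℚ ℝ := Submodule.span ℚ (Set.range r)
  have hfin : Module.Finite ℚ W := Module.Finite.span_of_finite ℚ (Set.finite_range r)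
  let ρ := Module.finBasis ℚ W
  let q : Fin k → Fin (Module.finrank ℚ W) → ℚ := fun i s =>
    ρ.repr ⟨r i, Submodule.subset_span ⟨i, rfl⟩⟩ s
  have hq : ∀ i, r i = ∑ s, (q i s : ℝ) * (ρ s : ℝ) := by
    intro i
    have h := congrArg (Subtype.val) (ρ.sum_repr ⟨r i, Submodule.subset_span ⟨i, rfl⟩⟩)
    refine h.symm.trans ?_
    rw [AddSubmonoidClass.coe_finsetSum]
    refine Finset.sum_congr rfl fun s _ => ?_
    rw [Submodule.coe_smul, Rat.smul_def]
  let X : Fin (Module.finrank ℚ W) → Module.End ℝ T.V := fun s =>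
    ∑ i, (q i s : ℝ) • (Y i : Module.End ℝ T.V)
  have hX : ∀ s, RatEnd T (X s) := fun s => RatEnd.sum _ fun i _ =>
    (hM _ (Y i).2).qsmul (q i s)
  have hsum : J = ∑ s, (ρ s : ℝ) • X s := by
    rw [← hJ']
    simp only [X, Finset.smul_sum]
    rw [Finset.sum_comm]
    refine Finset.sum_congr rfl fun i _ => ?_
    rw [hq i, Finset.sum_smul]
    refine Finset.sum_congr rfl fun s _ => ?_
    rw [smul_smul, mul_comm]
  refine ⟨Module.finrank ℚ W, fun s => (ρ s : ℝ), X, hsum, hX, fun s => ?_, ?_⟩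
  · refine AddSubgroup.sum_mem _ fun i _ => ?_
    exact AddSubgroup.subset_closure ⟨Y i, (Y i).2, q i s, rfl⟩
  · intro m c hc hJc s a
    rw [← lieM_apply]
    refine eq_zero_of_rat (fun a ha => ?_) a
    rw [lieM_apply]
    have h1 : ∀ t, ∃ x : ℚ, lieAct (X t) c a = x := fun t => lieAct_rat (hX t) hc a ha
    choose x hx using h1
    have h2 : ∑ t, x t • ρ t = 0 := by
      apply Subtype.ext
      rw [AddSubmonoidClass.coe_finsetSum, Submodule.coe_zero]
      have h3 := hJc a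
      rw [hsum, ← lieX_apply, map_sum] at h3
      have h4 : ∑ t, ((x t : ℝ) * (ρ t : ℝ) : ℝ) = 0 := by
        apply Complex.ofReal_injective
        rw [Complex.ofReal_zero, ← h3, Complex.ofReal_sum]
        refine Finset.sum_congr rfl fun t _ => ?_
        rw [lieX_apply, lieAct_smul, hx t]
        push_cast
        ring
      rw [← h4]
      refine Finset.sum_congr rfl fun t _ => ?_
      rw [Submodule.coe_smul, Rat.smul_def]
    have h5 := (Fintype.linearIndependent_iff.1 ρ.linearIndependent) x h2 s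
    rw [hx s, h5, Rat.cast_zero]

end HC
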