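import Pool.Agent.Lib.HC.L.Defs

/-!
# PROJECT HC+: (f) isogenies (helper58)

`pLf : S_Lf`: the Hodge conjecture is invariant under isogenies.
-/

set_option autoImplicit false

noncomputable section

namespace HC

namespace LfAux

variable {T T' : AV}

/-- A uniform denominator. -/
theorem unif (f : T.V →ₗ[ℂ] T'.V) (h : ∀ v ∈ T.L, ∃ N : ℕ, N ≠ 0 ∧ N • f v ∈ T'.L) :
    ∃ N : ℕ, N ≠ 0 ∧ ∀ v ∈ T.L, N • f v ∈ T'.L := by
  haveI : Module.Finite ℤ T.L := ZLattice.module_finite ℝ T.L
  obtain ⟨S, hS⟩ : T.L.FG := Module.Finite.iff_fg.1 inferInstance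
  choose! N hN using h
  have hSL : ∀ s ∈ S, s ∈ T.L := fun s hs => hS ▸ Submodule.subset_span hs
  refine ⟨∏ s ∈ S, N s, Finset.prod_ne_zero_iff.2 fun s hs => (hN s (hSL s hs)).1, ?_⟩
  intro v hv
  rw [← hS] at hv
  induction hv using Submodule.span_induction with
  | mem x hx =>
    obtain ⟨k, hk⟩ := Finset.dvd_prod_of_mem N hx
    rw [hk, mul_comm, mul_nsmul']
    exact T'.L.smul_of_tower_mem k (hN x (hSL x hx)).2
  | zero => rw [map_zero, smul_zero]; exact T'.L.zero_mem
  | add x y _ _ hx hy => rw [map_add, smul_add]; exact T'.L.add_mem hx hy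
  | smul z x _ hx =>
    rw [map_zsmul, smul_comm]
    exact T'.L.smul_mem z hx

/-- The lattice of the source has finite index in the lattice of the target. -/
theorem inv (f : T.V ≃ₗ[ℂ] T'.V) (h : ∀ v ∈ T.L, f v ∈ T'.L) :
    ∃ M : ℕ, M ≠ 0 ∧ ∀ v ∈ T'.L, ∃ w ∈ T.L, f w = M • v := by
  haveI : Module.Finite ℤ T.L := ZLattice.module_finite ℝ T.L
  haveI : Module.Finite ℤ T'.L := ZLattice.module_finite ℝ T'.L
  haveI : Module.Free ℤ T.L := ZLattice.module_free ℝ T.L
  haveI : Module.Free ℤ T'.L := ZLattice.module_free ℝ T'.L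
  let g : T.L →ₗ[ℤ] T'.L :=
    { toFun := fun v => ⟨f v, h v v.2⟩
      map_add' := fun v w => Subtype.ext (map_add f (v : T.V) w)
      map_smul' := fun n v => Subtype.ext (map_zsmul f n (v : T.V)) }
  have hg : Function.Injective g := by
    intro v w hvw
    exact Subtype.ext (f.injective (congrArg Subtype.val hvw))
  have hr : Module.finrank ℤ (LinearMap.range g) = Module.finrank ℤ T'.L := by
    rw [LinearMap.finrank_range_of_inj hg, ZLattice.rank ℝ T.L, ZLattice.rank ℝ T'.L]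
    exact (f.restrictScalars ℝ).finrank_eq
  haveI : Finite (T'.L ⧸ LinearMap.range g) := Submodule.finiteQuotientOfFreeOfRankEq _ hr
  refine ⟨Nat.card (T'.L ⧸ LinearMap.range g), Nat.card_pos.ne', fun v hv => ?_⟩
  have h1 : (Submodule.Quotient.mk (Nat.card (T'.L ⧸ LinearMap.range g) • (⟨v, hv⟩ : T'.L)) :
      T'.L ⧸ LinearMap.range g) = 0 := by
    rw [Submodule.Quotient.mk_smul]
    exact card_nsmul_eq_zero'
  rw [Submodule.Quotient.mk_eq_zero] at h1
  obtain ⟨w, hw⟩ := h1
  exact ⟨w, w.2, congrArg Subtype.val hw⟩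

end LfAux

open LfAux in
/-- **Isogenies.** -/
theorem pLf : S_Lf := by
  rintro T T' ⟨ψ, hψ⟩ H m c hc
  obtain ⟨N, hN0, hN⟩ := unif ψ.toLinearMap hψ
  have hNC : (N : ℂ) ≠ 0 := Nat.cast_ne_zero.2 hN0
  let f : T.V ≃ₗ[ℂ] T'.V := ψ.trans (LinearEquiv.smulOfNeZero ℂ T'.V (N : ℂ) hNC)
  have hfa : ∀ v, f v = (N : ℂ) • ψ v := fun v => rfl
  have hf : ∀ v ∈ T.L, f v ∈ T'.L := by
    intro v hv
    rw [hfa, Nat.cast_smul_eq_nsmul]
    exact hN v hv
  obtain ⟨M, hM0, hM⟩ := inv f hf
  have hMC : (M : ℂ) ≠ 0 := Nat.cast_ne_zero.2 hM0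
  let e : T'.V →ₗ[ℂ] T.V := (M : ℂ) • f.symm.toLinearMap
  have he : ∀ v ∈ T'.L, e v ∈ T.L := by
    intro v hv
    obtain ⟨w, hw, hfw⟩ := hM v hv
    have h1 : e v = w := by
      show (M : ℂ) • f.symm v = w
      rw [← map_smul, Nat.cast_smul_eq_nsmul, ← hfw, LinearEquiv.symm_apply_apply]
    rw [h1]
    exact hw
  -- the image is a Hodge class
  have h2 : IsHodge T' m (push f.toLinearMap c) := by
    refine ⟨fun a ha => ?_, fun u hu => ?_⟩
    · exact hc.1 (fun i => pull f.toLinearMap (a i)) fun i v hv => ha i (f v) (hf v hv)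
    · have h3 : push (u • LinearMap.id) (push f.toLinearMap c) =
          push (T' := T') f.toLinearMap (push (u • LinearMap.id) c) := by
        ext a
        show c (fun i => pull f.toLinearMap (pull (u • LinearMap.id) (a i))) =
          c (fun i => pull (u • LinearMap.id) (pull f.toLinearMap (a i)))
        congr 1
        funext i
        ext v
        show a i (u • f v) = a i (f (u • v))
        rw [f.map_smul]
      rw [h3, hc.2 u hu]
  have h4 : Alg T m (push e (push (T' := T') f.toLinearMap c)) := Alg.push e he (H m _ h2)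
  have h5 : push e (push (T' := T') f.toLinearMap c) = ((M : ℂ) ^ m) • c := by
    ext a
    show c (fun i => pull f.toLinearMap (pull e (a i))) = ((M : ℂ) ^ m) • c a
    have h6 : (fun i => pull f.toLinearMap (pull e (a i))) = fun i => (M : ℂ) • a i := by
      funext i
      ext v
      show a i ((M : ℂ) • f.symm (f v)) = (M : ℂ) • a i v
      rw [LinearEquiv.symm_apply_apply, Nat.cast_smul_eq_nsmul, map_nsmul, Nat.cast_smul_eq_nsmul]
    rw [h6, AlternatingMap.map_smul_univ]
    simp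
  have h7 : c = ((M : ℂ) ^ m)⁻¹ • push e (push (T' := T') f.toLinearMap c) := by
    rw [h5, smul_smul, inv_mul_cancel₀ (pow_ne_zero _ hMC), one_smul]
  rw [h7]
  exact Alg.smul _ h4

end HC
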