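import Pool.Agent.Lib.HC.Defs

/-!
# PROJECT HC+: isogenies, rational endomorphisms, real multiplication
-/

set_option autoImplicit false

noncomputable section

namespace HC

/-- `T` is isogenous to `A × E_1 × … × E_n`. -/
def IsProdE (T A : AV) {n : ℕ} (E : Fin n → AV) : Prop :=
  ∃ ψ : T.V ≃ₗ[ℂ] A.V × (∀ i, (E i).V), ∀ v ∈ T.L, ∃ N : ℕ, N ≠ 0 ∧ N • (ψ v).1 ∈ A.L ∧
    ∀ i, N • (ψ v).2 i ∈ (E i).L

/-- `X` maps the rational lattice into itself. -/
def RatEnd (B : AV) (X : Module.End ℝ B.V) : Prop :=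
  ∀ v ∈ B.L, ∃ N : ℕ, N ≠ 0 ∧ N • X v ∈ B.L

/-- `B` has real multiplication by a totally real field of degree `dim B` (type `GL₂`; for
example every elliptic curve, `F = ℚ`). -/
def IsRM (B : AV) : Prop :=
  ∃ (F : Type) (_ : Field F) (_ : NumberField F) (_ : NumberField.IsTotallyReal F)
    (ι : F →+* Module.End ℂ B.V), Module.finrank ℚ F = Module.finrank ℂ B.V ∧
    ∀ x : F, RatEnd B ((ι x).restrictScalars ℝ)

end HC
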