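import Pool.Agent.Lib.HC.L.Base

/-!
# PROJECT HC+: CM abelian varieties times others (note 4389, lead)

* `HCj T`: the Hodge conjecture for `T`.
* `IsProd T A B`: `T` is isogenous to `A × B`. `IsProdE T A E`: `T` is isogenous to
  `A × E_1 × … × E_n`. `IsRM B`: `B` has real multiplication of degree `dim B`.
* `RatEnd B X`: `X` maps the rational lattice into itself. `mulI B`: the multiplication by `i`.
* `SSH B`: the Hodge Lie algebra of `B` is perfect: every set `h` of rational endomorphisms of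
  the real vector space `B.V`, closed under commutators, with `i` in its real span, has `i` in the
  real span of the commutators. (The smallest `ℚ`-Lie algebra whose real span contains `i` is
  the Hodge Lie algebra `hg`; `SSH` says `hg = [hg, hg]`: no factor of type IV.)
* `lieAct X c`: the action of a real endomorphism on homology as a derivation.
* `Part2`, `Part3`: the targets.
-/

set_option autoImplicit false

noncomputable section

namespace HC

/-- The Hodge conjecture for `T`. -/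
def HCj (T : AV) : Prop := ∀ (m : ℕ) (c : Hlg T m), IsHodge T m c → Alg T m c

/-- `T` is isogenous to `A × B`. -/
def IsProd (T A B : AV) : Prop :=
  ∃ ψ : T.V ≃ₗ[ℂ] A.V × B.V, ∀ v ∈ T.L, ∃ N : ℕ, N ≠ 0 ∧ N • (ψ v).1 ∈ A.L ∧ N • (ψ v).2 ∈ B.L

/-- The multiplication by `i`. -/
def mulI (B : AV) : Module.End ℝ B.V :=
  (Complex.I • (LinearMap.id : B.V →ₗ[ℂ] B.V)).restrictScalars ℝ

/-- The Hodge Lie algebra is perfect. -/
def SSH (B : AV) : Prop :=
  ∀ h : Set (Module.End ℝ B.V), (∀ X ∈ h, RatEnd B X) → (∀ X ∈ h, ∀ Y ∈ h, X * Y - Y * X ∈ h) →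
    mulI B ∈ Submodule.span ℝ h →
    mulI B ∈ Submodule.span ℝ {Z | ∃ X ∈ h, ∃ Y ∈ h, Z = X * Y - Y * X}

/-- The action of `X` on homology: `(X c)(a_1, …, a_m) = ∑_i c(a_1, …, a_i ∘ X, …, a_m)`. -/
def lieAct {T : AV} {m : ℕ} (X : Module.End ℝ T.V) (c : Hlg T m)
    (a : Fin m → (T.V →ₗ[ℝ] ℂ)) : ℂ :=
  ∑ i, c (Function.update a i (a i ∘ₗ X))

/-- `A` of CM type, `B` with perfect Hodge Lie algebra and with the Hodge conjecture. -/
def Part2 : Prop :=
  ∀ A B T : AV, IsCM A → SSH B → HCj B → IsProd T A B → HCj T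

/-- `A` of CM type, `B_i` with real multiplication by a totally real field of degree
`dim B_i`. -/
def Part3 : Prop :=
  ∀ (A T : AV) (n : ℕ) (B : Fin n → AV), IsCM A → (∀ i, IsRM (B i)) → IsProdE T A B → HCj T

/-! ## Statements for part 2 -/

/-- (a) `i` kills a Hodge class. -/
def S_La : Prop :=
  ∀ (T : AV) (m : ℕ) (c : Hlg T m), IsHodge T m c → ∀ a, lieAct (mulI T) c a = 0

/-- (a') the commutator. -/
def S_La' : Prop :=
  ∀ (T : AV) (m : ℕ) (c : Hlg T m) (X Y : Module.End ℝ T.V), (∀ a, lieAct X c a = 0) →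
    (∀ a, lieAct Y c a = 0) → ∀ a, lieAct (X * Y - Y * X) c a = 0

/-- (b) a real combination `J` of rational endomorphisms is a combination of rational
endomorphisms with real coefficients that are linearly independent over `ℚ`; if `J` kills a
rational class they kill it. -/
def S_Lb : Prop :=
  ∀ (T : AV) (J : Module.End ℝ T.V) (M : Set (Module.End ℝ T.V)), (∀ X ∈ M, RatEnd T X) →
    J ∈ Submodule.span ℝ M → ∃ (n : ℕ) (ρ : Fin n → ℝ) (X : Fin n → Module.End ℝ T.V),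
      J = ∑ s, ρ s • X s ∧ (∀ s, RatEnd T (X s)) ∧ (∀ s, X s ∈ AddSubgroup.closure
        {Z | ∃ Y ∈ M, ∃ q : ℚ, Z = (q : ℝ) • Y}) ∧
      ∀ (m : ℕ) (c : Hlg T m), (∀ a : Fin m → (T.V →ₗ[ℝ] ℂ),
        (∀ i, ∀ v ∈ T.L, ∃ x : ℚ, a i v = x) → ∃ x : ℚ, c a = x) →
        (∀ a, lieAct J c a = 0) → ∀ s a, lieAct (X s) c a = 0

/-- (c1) `mulI` is a real combination of rational endomorphisms. -/
def S_Lc1 : Prop :=
  ∀ T : AV, mulI T ∈ Submodule.span ℝ {X | RatEnd T X}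

/-- (c2) for `A` of CM type, `mulI` is a real combination of commuting rational endomorphisms. -/
def S_Lc2 : Prop :=
  ∀ A : AV, IsCM A → ∃ M : Set (Module.End ℝ A.V), (∀ X ∈ M, RatEnd A X) ∧
    (∀ X ∈ M, ∀ Y ∈ M, X * Y = Y * X) ∧ mulI A ∈ Submodule.span ℝ M

/-- A copy of the product `A × B` as an abelian variety. -/
structure Pd (A B : AV) where
  T : AV
  ψ : T.V ≃ₗ[ℂ] A.V × B.V
  lat : ∀ v, v ∈ T.L ↔ (ψ v).1 ∈ A.L ∧ (ψ v).2 ∈ B.L

/-- (0) products exist. -/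
def S_L0 : Prop := ∀ A B : AV, Nonempty (Pd A B)

/-- (c3) the two factors of `i` kill a Hodge class of `A × B`. -/
def S_Lc3 : Prop :=
  ∀ (A B : AV) (P : Pd A B), IsCM A → SSH B → ∀ (m : ℕ) (c : Hlg P.T m), IsHodge P.T m c →
    (∀ X : Module.End ℝ P.T.V, (∀ v, P.ψ (X v) = (Complex.I • (P.ψ v).1, 0)) →
      ∀ a, lieAct X c a = 0) ∧
    (∀ X : Module.End ℝ P.T.V, (∀ v, P.ψ (X v) = (0, Complex.I • (P.ψ v).2)) →
      ∀ a, lieAct X c a = 0)

/-- (d) hence the class is invariant under the two circles. -/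
def S_Ld : Prop :=
  ∀ (A B : AV) (P : Pd A B) (m : ℕ) (c : Hlg P.T m),
    ((∀ X : Module.End ℝ P.T.V, (∀ v, P.ψ (X v) = (Complex.I • (P.ψ v).1, 0)) →
      ∀ a, lieAct X c a = 0) ∧
    (∀ X : Module.End ℝ P.T.V, (∀ v, P.ψ (X v) = (0, Complex.I • (P.ψ v).2)) →
      ∀ a, lieAct X c a = 0)) → ∀ (u w : ℂ), ‖u‖ = 1 → ‖w‖ = 1 → ∀ φ : P.T.V →ₗ[ℂ] P.T.V,
      (∀ v, P.ψ (φ v) = (u • (P.ψ v).1, w • (P.ψ v).2)) → push (T' := P.T) φ c = c

/-- (e) KÜNNETH: a rational class of `A × B` invariant under the two circles is algebraic if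
the Hodge conjecture holds for `A` and `B`. -/
def S_Le : Prop :=
  ∀ (A B : AV) (P : Pd A B) (m : ℕ) (c : Hlg P.T m), IsHodge P.T m c →
    (∀ (u w : ℂ), ‖u‖ = 1 → ‖w‖ = 1 → ∀ φ : P.T.V →ₗ[ℂ] P.T.V,
      (∀ v, P.ψ (φ v) = (u • (P.ψ v).1, w • (P.ψ v).2)) → push (T' := P.T) φ c = c) →
    HCj A → HCj B → Alg P.T m c

/-- (f) isogenies. -/
def S_Lf : Prop :=
  ∀ T T' : AV, (∃ ψ : T.V ≃ₗ[ℂ] T'.V, ∀ v ∈ T.L, ∃ N : ℕ, N ≠ 0 ∧ N • ψ v ∈ T'.L) →
    HCj T' → HCj T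

end HC
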