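import Pool.Agent.Lib.HC.B.Pt

/-!
PROJECT HC+, Kuenneth formula (helper14): multilinear algebra.
-/

set_option autoImplicit false

noncomputable section

namespace HC.L

open Module

/-! ### Generalized inverses -/

lemma exists_ginvL {V W : Type} [AddCommGroup V] [Module ℂ V] [AddCommGroup W] [Module ℂ W]
    (f : V →ₗ[ℂ] W) : ∃ g : W →ₗ[ℂ] V, ∀ v, f (g (f v)) = f v := by
  obtain ⟨s, hs⟩ := f.rangeRestrict.exists_rightInverse_of_surjective
    (LinearMap.range_rangeRestrict f)
  obtain ⟨p, hp⟩ := (LinearMap.range f).subtype.exists_leftInverse_of_injective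
    (Submodule.ker_subtype _)
  refine ⟨s ∘ₗ p, fun v => ?_⟩
  have h1 : p (f v) = f.rangeRestrict v := by
    have := LinearMap.congr_fun hp (f.rangeRestrict v)
    exact this
  have h2 : f.rangeRestrict (s (f.rangeRestrict v)) = f.rangeRestrict v :=
    LinearMap.congr_fun hs (f.rangeRestrict v)
  rw [LinearMap.comp_apply, h1]
  exact congrArg Subtype.val h2

lemma exists_ginv {S R : Type} [Fintype S] [Fintype R] (t : S → R → ℂ) :
    ∃ G : R → S → ℂ, ∀ s r, t s r = ∑ r', ∑ s', G r' s' * (t s r' * t s' r) := by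
  classical
  obtain ⟨g, hg⟩ := exists_ginvL (Matrix.mulVecLin (Matrix.of t))
  refine ⟨fun r s => g (Pi.single s 1) r, fun s r => ?_⟩
  have h1 : ∀ v : R → ℂ, ∀ s, Matrix.mulVecLin (Matrix.of t) v s = ∑ r, t s r * v r :=
    fun v s => rfl
  have h2 : Matrix.mulVecLin (Matrix.of t) (Pi.single r 1) = fun s' => t s' r := by
    funext s'
    rw [h1, Finset.sum_eq_single r]
    · simp
    · intro b _ hb; simp [hb]
    · intro h; exact absurd (Finset.mem_univ r) h
  have h3 := congrFun (hg (Pi.single r 1)) s
  rw [h1, h2] at h3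
  have h4 : (fun s' => t s' r) = ∑ s', t s' r • (Pi.single s' 1 : S → ℂ) := by
    funext k
    rw [Finset.sum_apply, Finset.sum_eq_single k]
    · simp
    · intro b _ hb; simp [hb.symm]
    · intro h; exact absurd (Finset.mem_univ k) h
  have h3' : t s r = ∑ r', t s r' * g (fun s' => t s' r) r' := h3.symm
  rw [h3']
  refine Finset.sum_congr rfl fun r' _ => ?_
  have h5 : g (fun s' => t s' r) r' = ∑ s', t s' r * g (Pi.single s' 1) r' := by
    conv_lhs => rw [h4]
    rw [map_sum, Finset.sum_apply]
    refine Finset.sum_congr rfl fun s' _ => ?_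
    rw [map_smul]; rfl
  rw [h5, Finset.mul_sum]
  refine Finset.sum_congr rfl fun s' _ => ?_
  ring

/-! ### Fixing some of the arguments -/

section fix

variable {W : Type} [AddCommGroup W] [Module ℂ W] {α β : Type}

/-- The right arguments are fixed. -/
def fixR (c : W [⋀^(α ⊕ β)]→ₗ[ℂ] ℂ) (b : β → W) : W [⋀^α]→ₗ[ℂ] ℂ where
  toFun x := c (Sum.elim x b)
  map_update_add' x i u v := by
    classical
    rw [Sum.elim_update_left, Sum.elim_update_left, Sum.elim_update_left, c.map_update_add]
  map_update_smul' x i u v := by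
    classical
    rw [Sum.elim_update_left, Sum.elim_update_left, c.map_update_smul]
  map_eq_zero_of_eq' x i j h hij :=
    c.map_eq_zero_of_eq (Sum.elim x b) (i := Sum.inl i) (j := Sum.inl j) h
      fun h' => hij (Sum.inl_injective h')

/-- The left arguments are fixed. -/
def fixL (c : W [⋀^(α ⊕ β)]→ₗ[ℂ] ℂ) (a : α → W) : W [⋀^β]→ₗ[ℂ] ℂ where
  toFun y := c (Sum.elim a y)
  map_update_add' y i u v := by
    classical
    rw [Sum.elim_update_right, Sum.elim_update_right, Sum.elim_update_right, c.map_update_add]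
  map_update_smul' y i u v := by
    classical
    rw [Sum.elim_update_right, Sum.elim_update_right, c.map_update_smul]
  map_eq_zero_of_eq' y i j h hij :=
    c.map_eq_zero_of_eq (Sum.elim a y) (i := Sum.inr i) (j := Sum.inr j) h
      fun h' => hij (Sum.inr_injective h')

lemma fixR_apply (c : W [⋀^(α ⊕ β)]→ₗ[ℂ] ℂ) (b : β → W) (x : α → W) :
    fixR c b x = c (Sum.elim x b) := rfl

lemma fixL_apply (c : W [⋀^(α ⊕ β)]→ₗ[ℂ] ℂ) (a : α → W) (y : β → W) :
    fixL c a y = c (Sum.elim a y) := rfl

lemma alt_sum_apply {ι κ : Type} (s : Finset κ) (c : κ → W [⋀^ι]→ₗ[ℂ] ℂ) (a : ι → W) :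
    (∑ i ∈ s, c i) a = ∑ i ∈ s, c i a := by
  classical
  induction s using Finset.induction_on with
  | empty => simp
  | insert i s hi ih =>
    rw [Finset.sum_insert hi, Finset.sum_insert hi, AlternatingMap.add_apply, ih]

/-- The decomposition of `c(x; y)` in products. -/
theorem tensor_decomp {WA WB I J : Type} [AddCommGroup WA] [Module ℂ WA] [AddCommGroup WB]
    [Module ℂ WB] [Fintype I] [Fintype J] [Fintype α] [Fintype β] [DecidableEq α] [DecidableEq β]
    (c : W [⋀^(α ⊕ β)]→ₗ[ℂ] ℂ) (PA : WA →ₗ[ℂ] W) (PB : WB →ₗ[ℂ] W) (bA : Basis I ℂ WA)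
    (bB : Basis J ℂ WB) :
    ∃ G : (β → J) → (α → I) → ℂ, ∀ (x : α → WA) (y : β → WB),
      c (Sum.elim (fun i => PA (x i)) (fun j => PB (y j))) = ∑ R, ∑ S, G R S *
        (c (Sum.elim (fun i => PA (x i)) (fun j => PB (bB (R j)))) *
          c (Sum.elim (fun i => PA (bA (S i))) (fun j => PB (y j)))) := by
  obtain ⟨G, hG⟩ := exists_ginv fun (S : α → I) (R : β → J) =>
    c (Sum.elim (fun i => PA (bA (S i))) (fun j => PB (bB (R j))))
  refine ⟨G, ?_⟩
  -- first step: `y` in the basis
  have h1 : ∀ (x : α → WA) (R0 : β → J),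
      c (Sum.elim (fun i => PA (x i)) (fun j => PB (bB (R0 j)))) = ∑ R, ∑ S, G R S *
        (c (Sum.elim (fun i => PA (x i)) (fun j => PB (bB (R j)))) *
          c (Sum.elim (fun i => PA (bA (S i))) (fun j => PB (bB (R0 j))))) := by
    intro x R0
    have h2 : (fixR c fun j => PB (bB (R0 j))).compLinearMap PA = ∑ R, ∑ S,
        (G R S * c (Sum.elim (fun i => PA (bA (S i))) (fun j => PB (bB (R0 j))))) •
          (fixR c fun j => PB (bB (R j))).compLinearMap PA := by
      refine bA.ext_alternating fun v _ => ?_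
      rw [alt_sum_apply]
      simp only [alt_sum_apply, AlternatingMap.smul_apply, AlternatingMap.compLinearMap_apply,
        fixR_apply]
      refine (hG v R0).trans ?_
      refine Finset.sum_congr rfl fun R _ => Finset.sum_congr rfl fun S _ => ?_
      rw [smul_eq_mul]
      ring_nf
    have h3 := congrArg (fun f => f x) h2
    simp only [alt_sum_apply, AlternatingMap.smul_apply, AlternatingMap.compLinearMap_apply,
        fixR_apply] at h3
    refine h3.trans ?_
    refine Finset.sum_congr rfl fun R _ => Finset.sum_congr rfl fun S _ => ?_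
    rw [smul_eq_mul]
    ring
  intro x y
  have h2 : (fixL c fun i => PA (x i)).compLinearMap PB = ∑ R, ∑ S,
      (G R S * c (Sum.elim (fun i => PA (x i)) (fun j => PB (bB (R j))))) •
        (fixL c fun i => PA (bA (S i))).compLinearMap PB := by
    refine bB.ext_alternating fun v _ => ?_
    rw [alt_sum_apply]
    simp only [alt_sum_apply, AlternatingMap.smul_apply, AlternatingMap.compLinearMap_apply,
      fixL_apply]
    refine (h1 x v).trans ?_
    refine Finset.sum_congr rfl fun R _ => Finset.sum_congr rfl fun S _ => ?_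
    rw [smul_eq_mul]
    ring
  have h3 := congrArg (fun f => f y) h2
  simp only [alt_sum_apply, AlternatingMap.smul_apply, AlternatingMap.compLinearMap_apply,
      fixL_apply] at h3
  refine h3.trans ?_
  refine Finset.sum_congr rfl fun R _ => Finset.sum_congr rfl fun S _ => ?_
  rw [smul_eq_mul]
  ring

end fix

/-! ### Alternatization -/

section alt

variable {W : Type} [AddCommGroup W] [Module ℂ W]

lemma alt_domDomCongr {ι ι' : Type} [Fintype ι] [DecidableEq ι] [Fintype ι'] [DecidableEq ι']
    (N : MultilinearMap ℂ (fun _ : ι => W) ℂ) (e : ι ≃ ι') :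
    MultilinearMap.alternatization (N.domDomCongr e) =
      (MultilinearMap.alternatization N).domDomCongr e := by
  ext v
  rw [AlternatingMap.domDomCongr_apply, MultilinearMap.alternatization_apply,
    MultilinearMap.alternatization_apply]
  refine (Fintype.sum_equiv (Equiv.permCongr e) _ _ fun τ => ?_).symm
  rw [Equiv.Perm.sign_permCongr]
  simp only [MultilinearMap.domDomCongr_apply, Equiv.permCongr_apply, Equiv.symm_apply_apply]
  rfl

/-- `m! c` is the sum over the sets `X` of the alternatizations of `c ∘ (Q_A on X, Q_B off X)`. -/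
lemma factorial_smul_eq {m : ℕ} (c : W [⋀^Fin m]→ₗ[ℂ] ℂ) (QA QB : W →ₗ[ℂ] W)
    (h : ∀ a, QA a + QB a = a) :
    (m.factorial : ℂ) • c = ∑ X : Finset (Fin m), MultilinearMap.alternatization
      (c.toMultilinearMap.compLinearMap fun i => if i ∈ X then QA else QB) := by
  classical
  have h1 : (c : MultilinearMap ℂ (fun _ : Fin m => W) ℂ) = ∑ X : Finset (Fin m),
      c.toMultilinearMap.compLinearMap fun i => if i ∈ X then QA else QB := by
    ext v
    rw [MultilinearMap.sum_apply]
    have h2 : v = (fun i => QA (v i)) + fun i => QB (v i) := by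
      funext i; exact (h (v i)).symm
    conv_lhs => rw [h2]
    have h3 := c.toMultilinearMap.map_add_univ (fun i => QA (v i)) fun i => QB (v i)
    refine h3.trans ?_
    refine Finset.sum_congr rfl fun X _ => ?_
    rw [MultilinearMap.compLinearMap_apply]
    congr 1
    funext i
    by_cases hi : i ∈ X
    · rw [Finset.piecewise_eq_of_mem _ _ _ hi, if_pos hi]
    · rw [Finset.piecewise_eq_of_notMem _ _ _ hi, if_neg hi]
  have h4 := AlternatingMap.coe_alternatization c
  rw [h1, map_sum, Fintype.card_fin] at h4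
  rw [h4, Nat.cast_smul_eq_nsmul]

end alt

end HC.L
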