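import Pool.Agent.Lib.HC.L.Defs
import Pool.Agent.Lib.HC.L.KunA

/-!
PROJECT HC+, Kuenneth formula (helper14): the statement `S_Le`.
-/

set_option autoImplicit false

noncomputable section

namespace HC.L

open Module

/-- The forms `cfm b i` are a basis. -/
def cfB {T : AV} {ι : Type} [Fintype ι] (b : Basis ι ℝ T.V) : Basis ι ℂ (T.V →ₗ[ℝ] ℂ) := by
  classical
  refine Basis.mk (v := fun i => cfm b i) ?_ ?_
  · rw [Fintype.linearIndependent_iff]
    intro g hg k
    have h1 := LinearMap.congr_fun hg (b k)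
    rw [LinearMap.sum_apply, Finset.sum_eq_single k] at h1
    · simpa [cfm_apply_basis] using h1
    · intro i _ hi
      rw [LinearMap.smul_apply, cfm_apply_basis, if_neg hi.symm, smul_zero]
    · intro h; exact absurd (Finset.mem_univ k) h
  · intro p _
    rw [expand_form b p]
    exact Submodule.sum_mem _ fun i _ => Submodule.smul_mem _ _
      (Submodule.subset_span (Set.mem_range_self i))

lemma cfB_apply {T : AV} {ι : Type} [Fintype ι] (b : Basis ι ℝ T.V) (i : ι) :
    cfB b i = cfm b i := Basis.mk_apply _ _ _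

/-- There is a basis of rational forms. -/
lemma exists_ratBasis (T : AV) : ∃ (ι : Type) (_ : Fintype ι) (b : Basis ι ℂ (T.V →ₗ[ℝ] ℂ)),
    ∀ i, ∀ v ∈ T.L, ∃ x : ℚ, b i v = x := by
  have _ : FiniteDimensional ℝ T.V := FiniteDimensional.complexToReal T.V
  have _ := ZLattice.module_finite ℝ T.L
  have _ := ZLattice.module_free ℝ T.L
  let b := (Module.Free.chooseBasis ℤ T.L)
  refine ⟨_, inferInstance, cfB (b.ofZLatticeBasis ℝ T.L), fun i v hv => ?_⟩
  rw [cfB_apply]
  refine ⟨(b.repr ⟨v, hv⟩ i : ℤ), ?_⟩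
  rw [cfm, LinearMap.smulRight_apply, Basis.coord_apply]
  have h := Basis.ofZLatticeBasis_repr_apply ℝ T.L b ⟨v, hv⟩ i
  rw [h]
  simp

lemma alg_domDomCongr {T : AV} {n m : ℕ} {c : Hlg T n} (hc : Alg T n c) (e : Fin n ≃ Fin m) :
    Alg T m (c.domDomCongr e) := by
  have hnm : n = m := by simpa using Fintype.card_congr e
  subst hnm
  rw [AlternatingMap.domDomCongr_perm]
  rcases Int.units_eq_one_or (Equiv.Perm.sign e) with h | h <;> rw [h]
  · rwa [one_smul]
  · rw [Units.neg_smul, one_smul]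
    exact hc.neg

section maps

variable {A B : AV} (P : Pd A B)

/-- The projections and inclusions. -/
def pA : P.T.V →ₗ[ℂ] A.V := LinearMap.fst ℂ A.V B.V ∘ₗ P.ψ.toLinearMap
def pB : P.T.V →ₗ[ℂ] B.V := LinearMap.snd ℂ A.V B.V ∘ₗ P.ψ.toLinearMap
def iA : A.V →ₗ[ℂ] P.T.V := P.ψ.symm.toLinearMap ∘ₗ LinearMap.inl ℂ A.V B.V
def iB : B.V →ₗ[ℂ] P.T.V := P.ψ.symm.toLinearMap ∘ₗ LinearMap.inr ℂ A.V B.V

lemma pA_apply (v : P.T.V) : pA P v = (P.ψ v).1 := rfl
lemma pB_apply (v : P.T.V) : pB P v = (P.ψ v).2 := rfl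

lemma iA_mem {v : A.V} (hv : v ∈ A.L) : iA P v ∈ P.T.L := by
  rw [P.lat]
  show (P.ψ (P.ψ.symm (v, 0))).1 ∈ A.L ∧ (P.ψ (P.ψ.symm (v, 0))).2 ∈ B.L
  rw [LinearEquiv.apply_symm_apply]
  exact ⟨hv, B.L.zero_mem⟩

lemma iB_mem {v : B.V} (hv : v ∈ B.L) : iB P v ∈ P.T.L := by
  rw [P.lat]
  show (P.ψ (P.ψ.symm (0, v))).1 ∈ A.L ∧ (P.ψ (P.ψ.symm (0, v))).2 ∈ B.L
  rw [LinearEquiv.apply_symm_apply]
  exact ⟨A.L.zero_mem, hv⟩

lemma iA_add_iB (v : P.T.V) : iA P (pA P v) + iB P (pB P v) = v := by
  show P.ψ.symm ((P.ψ v).1, 0) + P.ψ.symm (0, (P.ψ v).2) = v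
  rw [← map_add]
  simp

/-- The map `(u, w)`. -/
def muw (u w : ℂ) : P.T.V →ₗ[ℂ] P.T.V :=
  P.ψ.symm.toLinearMap ∘ₗ (LinearMap.prodMap (u • LinearMap.id) (w • LinearMap.id)) ∘ₗ
    P.ψ.toLinearMap

lemma ψ_muw (u w : ℂ) (v : P.T.V) : P.ψ (muw P u w v) = (u • (P.ψ v).1, w • (P.ψ v).2) := by
  show P.ψ (P.ψ.symm (u • (P.ψ v).1, w • (P.ψ v).2)) = _
  rw [LinearEquiv.apply_symm_apply]

end maps

lemma alternatization_smul' {W ι : Type} [AddCommGroup W] [Module ℂ W] [Fintype ι]
    [DecidableEq ι] (x : ℂ) (N : MultilinearMap ℂ (fun _ : ι => W) ℂ) :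
    MultilinearMap.alternatization (x • N) = x • MultilinearMap.alternatization N := by
  ext v
  rw [AlternatingMap.smul_apply, MultilinearMap.alternatization_apply,
    MultilinearMap.alternatization_apply, Finset.smul_sum]
  refine Finset.sum_congr rfl fun σ _ => ?_
  rw [MultilinearMap.domDomCongr_apply, MultilinearMap.domDomCongr_apply]
  show Equiv.Perm.sign σ • (x • N fun i => v (σ i)) = x • (Equiv.Perm.sign σ • N fun i => v (σ i))
  rw [smul_comm]

theorem tLe : S_Le := by
  intro A B P m c hc hinv hA hB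
  obtain ⟨I, _, bA, hbA⟩ := exists_ratBasis A
  obtain ⟨J, _, bB, hbB⟩ := exists_ratBasis B
  classical
  have hinv' : ∀ u w : ℂ, ‖u‖ = 1 → ‖w‖ = 1 → push (T' := P.T) (muw P u w) c = c := fun u w hu hw =>
    hinv u w hu hw _ fun v => ψ_muw P u w v
  -- rationality
  have hratA : ∀ a : A.V →ₗ[ℝ] ℂ, (∀ v ∈ A.L, ∃ x : ℚ, a v = x) →
      ∀ v ∈ P.T.L, ∃ x : ℚ, pull (pA P) a v = x := fun a ha v hv => ha _ ((P.lat v).1 hv).1
  have hratB : ∀ a : B.V →ₗ[ℝ] ℂ, (∀ v ∈ B.L, ∃ x : ℚ, a v = x) →
      ∀ v ∈ P.T.L, ∃ x : ℚ, pull (pB P) a v = x := fun a ha v hv => ha _ ((P.lat v).1 hv).2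
  -- one piece
  have piece : ∀ (p q : ℕ) (e : Fin p ⊕ Fin q ≃ Fin m), Alg P.T m ((MultilinearMap.alternatization
      ((c.domDomCongr e.symm).toMultilinearMap.compLinearMap (Sum.elim
        (fun _ => pull (pA P) ∘ₗ pull (iA P)) (fun _ => pull (pB P) ∘ₗ pull (iB P))))).domDomCongr
          e) := by
    intro p q e
    obtain ⟨G, hG⟩ := tensor_decomp (c.domDomCongr e.symm) (pull (pA P)) (pull (pB P)) bA bB
    let hR : (Fin q → J) → Hlg A p := fun R =>
      (fixR (c.domDomCongr e.symm) fun j => pull (pB P) (bB (R j))).compLinearMap (pull (pA P))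
    let dS : (Fin p → I) → Hlg B q := fun S =>
      (fixL (c.domDomCongr e.symm) fun i => pull (pA P) (bA (S i))).compLinearMap (pull (pB P))
    have hR1 : ∀ R, Alg A p (hR R) := by
      intro R
      refine hA p _ ⟨fun a ha => ?_, fun u hu => ?_⟩
      · show ∃ x : ℚ, c (fun i => Sum.elim (fun i => pull (pA P) (a i))
          (fun j => pull (pB P) (bB (R j))) (e.symm i)) = x
        refine hc.1 _ fun i => ?_
        rcases e.symm i with j | j
        · exact hratA _ (ha j)
        · exact hratB _ (hbB (R j))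
      · ext a
        show c (fun i => Sum.elim (fun i => pull (pA P) (pull (u • LinearMap.id) (a i)))
          (fun j => pull (pB P) (bB (R j))) (e.symm i)) =
          c (fun i => Sum.elim (fun i => pull (pA P) (a i))
            (fun j => pull (pB P) (bB (R j))) (e.symm i))
        conv_rhs => rw [← hinv' u 1 hu norm_one, push_apply]
        congr 1
        funext i
        rcases e.symm i with j | j
        · refine LinearMap.ext fun v => ?_
          show a j (u • (P.ψ v).1) = a j (P.ψ (muw P u 1 v)).1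
          rw [ψ_muw]
        · refine LinearMap.ext fun v => ?_
          show bB (R j) (P.ψ v).2 = bB (R j) (P.ψ (muw P u 1 v)).2
          rw [ψ_muw, one_smul]
    have dS1 : ∀ S, Alg B q (dS S) := by
      intro S
      refine hB q _ ⟨fun a ha => ?_, fun u hu => ?_⟩
      · show ∃ x : ℚ, c (fun i => Sum.elim (fun i => pull (pA P) (bA (S i)))
          (fun j => pull (pB P) (a j)) (e.symm i)) = x
        refine hc.1 _ fun i => ?_
        rcases e.symm i with j | j
        · exact hratA _ (hbA (S j))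
        · exact hratB _ (ha j)
      · ext a
        show c (fun i => Sum.elim (fun i => pull (pA P) (bA (S i)))
          (fun j => pull (pB P) (pull (u • LinearMap.id) (a j))) (e.symm i)) =
          c (fun i => Sum.elim (fun i => pull (pA P) (bA (S i)))
            (fun j => pull (pB P) (a j)) (e.symm i))
        conv_rhs => rw [← hinv' 1 u norm_one hu, push_apply]
        congr 1
        funext i
        rcases e.symm i with j | j
        · refine LinearMap.ext fun v => ?_
          show bA (S j) (P.ψ v).1 = bA (S j) (P.ψ (muw P 1 u v)).1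
          rw [ψ_muw, one_smul]
        · refine LinearMap.ext fun v => ?_
          show a j (u • (P.ψ v).2) = a j (P.ψ (muw P 1 u v)).2
          rw [ψ_muw]
    -- the multilinear map is a sum of products
    have hN : (c.domDomCongr e.symm).toMultilinearMap.compLinearMap (Sum.elim
        (fun _ => pull (pA P) ∘ₗ pull (iA P)) (fun _ => pull (pB P) ∘ₗ pull (iB P))) =
        ∑ R, ∑ S, G R S • (LinearMap.mul' ℂ ℂ).compMultilinearMap
          (MultilinearMap.domCoprod (push (T' := P.T) (iA P) (hR R)).toMultilinearMap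
            (push (T' := P.T) (iB P) (dS S)).toMultilinearMap) := by
      ext v
      simp only [MultilinearMap.sum_apply, MultilinearMap.smul_apply]
      have e1 : ((c.domDomCongr e.symm).toMultilinearMap.compLinearMap (Sum.elim
        (fun _ => pull (pA P) ∘ₗ pull (iA P)) (fun _ => pull (pB P) ∘ₗ pull (iB P)))) v =
          (c.domDomCongr e.symm) (Sum.elim (fun i => pull (pA P) (pull (iA P) (v (Sum.inl i))))
            (fun j => pull (pB P) (pull (iB P) (v (Sum.inr j))))) := by
        rw [MultilinearMap.compLinearMap_apply]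
        show (c.domDomCongr e.symm) _ = _
        congr 1
        funext i
        rcases i with i | i <;> rfl
      rw [e1, hG]
      refine Finset.sum_congr rfl fun R _ => Finset.sum_congr rfl fun S _ => ?_
      rw [smul_eq_mul]
      congr 1
    rw [hN]
    simp only [map_sum]
    have hsum : ∀ (f : (Fin q → J) → (Fin p → I) → (P.T.V →ₗ[ℝ] ℂ) [⋀^Fin p ⊕ Fin q]→ₗ[ℂ] ℂ),
        (∀ R S, Alg P.T m ((f R S).domDomCongr e)) →
          Alg P.T m ((∑ R, ∑ S, f R S).domDomCongr e) := by
      intro f hf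
      have h1 : (∑ R, ∑ S, f R S).domDomCongr e = ∑ R, ∑ S, (f R S).domDomCongr e := by
        ext a
        simp only [AlternatingMap.domDomCongr_apply, alt_sum_apply]
      rw [h1]
      exact Alg.sum fun R _ => Alg.sum fun S _ => hf R S
    refine hsum _ fun R S => ?_
    have h2 : MultilinearMap.alternatization (G R S • (LinearMap.mul' ℂ ℂ).compMultilinearMap
          (MultilinearMap.domCoprod (push (T' := P.T) (iA P) (hR R)).toMultilinearMap
            (push (T' := P.T) (iB P) (dS S)).toMultilinearMap)) =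
        (G R S * ((p.factorial * q.factorial : ℕ) : ℂ)) •
          (pont (push (T' := P.T) (iA P) (hR R)) (push (T' := P.T) (iB P) (dS S))).domDomCongr
            finSumFinEquiv.symm := by
      have h3 := LinearMap.compMultilinearMap_alternatization (LinearMap.mul' ℂ ℂ)
        (MultilinearMap.domCoprod (push (T' := P.T) (iA P) (hR R)).toMultilinearMap
            (push (T' := P.T) (iB P) (dS S)).toMultilinearMap)
      have h4 := MultilinearMap.domCoprod_alternization_eq (push (T' := P.T) (iA P) (hR R))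
        (push (T' := P.T) (iB P) (dS S))
      rw [h4] at h3
      rw [alternatization_smul', h3, Fintype.card_fin, Fintype.card_fin]
      ext a
      rw [AlternatingMap.smul_apply, AlternatingMap.smul_apply,
        LinearMap.compAlternatingMap_apply, AlternatingMap.smul_apply, map_nsmul,
        AlternatingMap.domDomCongr_apply, pont, AlternatingMap.domDomCongr_apply,
        LinearMap.compAlternatingMap_apply, smul_eq_mul, smul_eq_mul, nsmul_eq_mul, mul_assoc]
      simp only [Function.comp_def, Equiv.symm_apply_apply]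
    rw [h2]
    have h5 : ((G R S * ((p.factorial * q.factorial : ℕ) : ℂ)) •
          (pont (push (T' := P.T) (iA P) (hR R)) (push (T' := P.T) (iB P) (dS S))).domDomCongr
            finSumFinEquiv.symm).domDomCongr e = (G R S * ((p.factorial * q.factorial : ℕ) : ℂ)) •
          (pont (push (T' := P.T) (iA P) (hR R)) (push (T' := P.T) (iB P) (dS S))).domDomCongr
            (finSumFinEquiv.symm.trans e) := by
      ext a; rfl
    rw [h5]
    refine Alg.smul _ (alg_domDomCongr (Alg.pont ?_ ?_) _)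
    · exact Alg.push _ (fun x hx => iA_mem P hx) (hR1 R)
    · exact Alg.push _ (fun x hx => iB_mem P hx) (dS1 S)
  -- the sum of the pieces
  have hQ : ∀ a : P.T.V →ₗ[ℝ] ℂ, (pull (pA P) ∘ₗ pull (iA P)) a + (pull (pB P) ∘ₗ pull (iB P)) a =
      a := by
    intro a
    refine LinearMap.ext fun v => ?_
    show a (iA P (pA P v)) + a (iB P (pB P v)) = a v
    rw [← map_add, iA_add_iB]
  have hfin := factorial_smul_eq c _ _ hQ
  refine Alg.of_smul (x := (m.factorial : ℂ)) (Nat.cast_ne_zero.2 (Nat.factorial_ne_zero m)) ?_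
  rw [hfin]
  refine Alg.sum fun X _ => ?_
  obtain ⟨p, q, e, he1, he2⟩ : ∃ (p q : ℕ) (e : Fin p ⊕ Fin q ≃ Fin m),
      (∀ i, e (Sum.inl i) ∈ X) ∧ ∀ j, e (Sum.inr j) ∉ X := by
    refine ⟨Fintype.card {i // i ∈ X}, Fintype.card {i // ¬ i ∈ X},
      (Equiv.sumCongr (Fintype.equivFin {i // i ∈ X}).symm
        (Fintype.equivFin {i // ¬ i ∈ X}).symm).trans (Equiv.sumCompl fun i => i ∈ X), ?_, ?_⟩
    · intro i
      exact ((Fintype.equivFin {i // i ∈ X}).symm i).2
    · intro j
      exact ((Fintype.equivFin {i // ¬ i ∈ X}).symm j).2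
  have h6 : (c.toMultilinearMap.compLinearMap fun i => if i ∈ X then
      pull (pA P) ∘ₗ pull (iA P) else pull (pB P) ∘ₗ pull (iB P)) =
      ((c.domDomCongr e.symm).toMultilinearMap.compLinearMap (Sum.elim
        (fun _ => pull (pA P) ∘ₗ pull (iA P))
        (fun _ => pull (pB P) ∘ₗ pull (iB P)))).domDomCongr e := by
    ext v
    rw [MultilinearMap.compLinearMap_apply, MultilinearMap.domDomCongr_apply,
      MultilinearMap.compLinearMap_apply]
    show c _ = c _
    congr 1
    funext i
    obtain ⟨k, rfl⟩ := e.surjective i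
    show _ = (Sum.elim (fun _ => pull (pA P) ∘ₗ pull (iA P))
      (fun _ => pull (pB P) ∘ₗ pull (iB P)) (e.symm (e k))) (v (e (e.symm (e k))))
    rw [Equiv.symm_apply_apply]
    rcases k with k | k
    · rw [if_pos (he1 k)]; rfl
    · rw [if_neg (he2 k)]; rfl
  rw [h6, alt_domDomCongr]
  exact piece p q e

end HC.L
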