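import Pool.Agent.Lib.HC.L.Defs
import Pool.Agent.Lib.HC.E.Rot

/-!
# PROJECT HC+, part L: `S_La`, `S_La'` (helper38)

* `lieM X c`: `lieAct X c` as a multilinear map.
* `pLa : S_La`: `i` kills a Hodge class.
* `pLa' : S_La'`: the endomorphisms killing a class are closed under commutators.
-/

set_option autoImplicit false

open Finset
open scoped ComplexConjugate

noncomputable section

namespace HC
namespace L

variable {T : AV} {m : ℕ}

/-- `a ↦ a ∘ X`. -/
def preX (X : Module.End ℝ T.V) : (T.V →ₗ[ℝ] ℂ) →ₗ[ℂ] (T.V →ₗ[ℝ] ℂ) where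
  toFun a := a ∘ₗ X
  map_add' _ _ := rfl
  map_smul' _ _ := rfl

/-- `lieAct X c` as a multilinear map. -/
def lieM (X : Module.End ℝ T.V) (c : Hlg T m) :
    MultilinearMap ℂ (fun _ : Fin m => (T.V →ₗ[ℝ] ℂ)) ℂ :=
  ∑ i, c.toMultilinearMap.compLinearMap
    (Function.update (fun _ => LinearMap.id) i (preX X))

theorem lieM_apply (X : Module.End ℝ T.V) (c : Hlg T m) (a : Fin m → (T.V →ₗ[ℝ] ℂ)) :
    lieM X c a = lieAct X c a := by
  unfold lieM lieAct
  rw [_root_.sum_apply]
  refine sum_congr rfl fun i _ => ?_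
  rw [MultilinearMap.compLinearMap_apply]
  change c _ = c _
  congr 1
  funext j
  rcases eq_or_ne j i with h | h
  · subst h
    rw [Function.update_self, Function.update_self]
    rfl
  · rw [Function.update_of_ne h, Function.update_of_ne h]
    rfl

/-- The `(1,0)` part. -/
def p10 (a : T.V →ₗ[ℝ] ℂ) : T.V →ₗ[ℝ] ℂ :=
  (2 : ℂ)⁻¹ • (a - Complex.I • (a ∘ₗ mulI T))

/-- The `(0,1)` part. -/
def p01 (a : T.V →ₗ[ℝ] ℂ) : T.V →ₗ[ℝ] ℂ :=
  (2 : ℂ)⁻¹ • (a + Complex.I • (a ∘ₗ mulI T))

theorem mulI_apply (v : T.V) : mulI T v = Complex.I • v := rfl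

theorem p10_add_p01 (a : T.V →ₗ[ℝ] ℂ) : p10 a + p01 a = a := by
  ext v
  simp only [p10, p01, LinearMap.add_apply, LinearMap.smul_apply, LinearMap.sub_apply,
    smul_eq_mul]
  ring

theorem smul_eq (u : ℂ) (v : T.V) : u • v = u.re • v + u.im • (Complex.I • v) := by
  have h : u = (u.re : ℂ) + (u.im : ℂ) * Complex.I := (Complex.re_add_im u).symm
  conv_lhs => rw [h]
  rw [add_smul, mul_smul, Complex.coe_smul, Complex.coe_smul]

theorem apply_smul (a : T.V →ₗ[ℝ] ℂ) (u : ℂ) (v : T.V) :
    a (u • v) = u.re * a v + u.im * a (Complex.I • v) := by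
  rw [smul_eq, map_add, map_smul, map_smul]
  rfl

theorem I_I (v : T.V) : Complex.I • (Complex.I • v) = -v := by
  rw [smul_smul, Complex.I_mul_I, neg_smul, one_smul]

theorem p10_I (a : T.V →ₗ[ℝ] ℂ) (v : T.V) : p10 a (Complex.I • v) = Complex.I * p10 a v := by
  simp only [p10, LinearMap.smul_apply, LinearMap.sub_apply, smul_eq_mul, LinearMap.comp_apply,
    mulI_apply, I_I, map_neg]
  linear_combination ((2 : ℂ)⁻¹ * a (Complex.I • v)) * Complex.I_mul_I

theorem p01_I (a : T.V →ₗ[ℝ] ℂ) (v : T.V) : p01 a (Complex.I • v) = -Complex.I * p01 a v := by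
  simp only [p01, LinearMap.smul_apply, LinearMap.add_apply, smul_eq_mul, LinearMap.comp_apply,
    mulI_apply, I_I, map_neg]
  linear_combination ((2 : ℂ)⁻¹ * a (Complex.I • v)) * Complex.I_mul_I

theorem p10_smul (a : T.V →ₗ[ℝ] ℂ) (u : ℂ) (v : T.V) : p10 a (u • v) = u * p10 a v := by
  rw [apply_smul, p10_I]
  conv_rhs => rw [← Complex.re_add_im u]
  ring

theorem p01_smul (a : T.V →ₗ[ℝ] ℂ) (u : ℂ) (v : T.V) : p01 a (u • v) = conj u * p01 a v := by
  rw [apply_smul, p01_I]
  have h : conj u = (u.re : ℂ) - (u.im : ℂ) * Complex.I := by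
    apply Complex.ext <;> simp
  rw [h]
  ring

/-- (a) `i` kills a Hodge class. -/
theorem pLa : S_La := by
  classical
  intro T m c hc a
  rw [← lieM_apply]
  have h1 : a = fun i => p10 (a i) + p01 (a i) := by
    funext i
    exact (p10_add_p01 (a i)).symm
  rw [h1]
  have h2 := (lieM (mulI T) c).map_add_univ (fun i => p10 (a i)) (fun i => p01 (a i))
  refine Eq.trans h2 (sum_eq_zero fun s _ => ?_)
  set b : Fin m → (T.V →ₗ[ℝ] ℂ) := s.piecewise (fun i => p10 (a i)) (fun i => p01 (a i)) with hb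
  have hb1 : ∀ i, i ∈ s → ∀ (u : ℂ) (v : T.V), b i (u • v) = u * b i v := by
    intro i hi u v
    rw [hb, piecewise_eq_of_mem _ _ _ hi]
    exact p10_smul (a i) u v
  have hb2 : ∀ i, ¬ i ∈ s → ∀ (u : ℂ) (v : T.V), b i (u • v) = conj u * b i v := by
    intro i hi u v
    rw [hb, piecewise_eq_of_notMem _ _ _ hi]
    exact p01_smul (a i) u v
  rw [lieM_apply]
  unfold lieAct
  have h3 : ∀ i, c (Function.update b i (b i ∘ₗ mulI T))
      = (if i ∈ s then Complex.I else -Complex.I) * c b := by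
    intro i
    have h4 : b i ∘ₗ mulI T = (if i ∈ s then Complex.I else -Complex.I) • b i := by
      ext v
      rw [LinearMap.comp_apply, mulI_apply, LinearMap.smul_apply, smul_eq_mul]
      split_ifs with h
      · exact hb1 i h _ v
      · rw [hb2 i h, Complex.conj_I]
    rw [h4, c.map_update_smul, Function.update_eq_self, smul_eq_mul]
  simp only [h3]
  rw [← sum_mul]
  by_cases h0 : c b = 0
  · rw [h0, mul_zero]
  · have h5 : 2 * (univ.filter (fun i => i ∈ s)).card = m := by
      refine E.rot c.toMultilinearMap b (fun i => i ∈ s)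
        (fun u => ((u • LinearMap.id : T.V →ₗ[ℂ] T.V).restrictScalars ℝ)) (fun u v => rfl)
        hb1 hb2 ?_ h0
      intro u hu
      exact congrArg (fun d : Hlg T m => d b) (hc.2 u hu)
    have h6 := Finset.card_filter_add_card_filter_not (s := (univ : Finset (Fin m)))
      (fun i => i ∈ s)
    rw [Finset.card_univ, Fintype.card_fin] at h6
    rw [sum_ite, sum_const, sum_const, nsmul_eq_mul, nsmul_eq_mul]
    have h7 : (univ.filter (fun i => ¬ i ∈ s)).card = (univ.filter (fun i => i ∈ s)).card := by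
      omega
    rw [h7]
    ring

/-- (a') the commutator. -/
theorem pLa' : S_La' := by
  classical
  intro T m c X Y hX hY a
  have key : ∀ Z W : Module.End ℝ T.V, (∀ a, lieAct Z c a = 0) →
      ∑ j, c (Function.update a j (a j ∘ₗ W ∘ₗ Z)) + ∑ j, ∑ i ∈ univ.erase j,
        c (Function.update (Function.update a j (a j ∘ₗ W)) i (a i ∘ₗ Z)) = 0 := by
    intro Z W hZ
    rw [← sum_add_distrib]
    refine sum_eq_zero fun j _ => ?_
    have h := hZ (Function.update a j (a j ∘ₗ W))
    unfold lieAct at h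
    rw [← add_sum_erase univ _ (mem_univ j), Function.update_self, Function.update_idem] at h
    rw [← h]
    congr 1
    refine sum_congr rfl fun i hi => ?_
    rw [Function.update_of_ne (ne_of_mem_erase hi)]
  have h1 := key X Y hX
  have h2 := key Y X hY
  have h3 : ∑ j, ∑ i ∈ univ.erase j,
        c (Function.update (Function.update a j (a j ∘ₗ Y)) i (a i ∘ₗ X)) =
      ∑ j, ∑ i ∈ univ.erase j,
        c (Function.update (Function.update a j (a j ∘ₗ X)) i (a i ∘ₗ Y)) := by
    rw [sum_comm' (t' := univ) (s' := fun i => univ.erase i)]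
    · refine sum_congr rfl fun j _ => sum_congr rfl fun i hi => ?_
      rw [Function.update_comm (ne_of_mem_erase hi)]
    · intro x y
      simp [eq_comm]
  unfold lieAct
  have h4 : ∀ i, c (Function.update a i (a i ∘ₗ (X * Y - Y * X))) =
      c (Function.update a i (a i ∘ₗ X ∘ₗ Y)) - c (Function.update a i (a i ∘ₗ Y ∘ₗ X)) := by
    intro i
    rw [← c.map_update_sub]
    congr 2
    ext v
    simp [Module.End.mul_apply, map_sub]
  simp only [h4]
  rw [sum_sub_distrib]
  linear_combination h2 - h1 + h3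

end L
end HC
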