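import Pool.Agent.Lib.HC.L.Defs

/-!
PROJECT HC+, (c3) (helper41): the two factors of `i` kill a Hodge class of `A × B`, `A` of CM
type, `B` with perfect Hodge Lie algebra.
-/

set_option autoImplicit false

noncomputable section

namespace HC

namespace Lc3

/-! ### The endomorphisms that kill a class -/

section kill

variable {T : AV} {m : ℕ}

lemma lieAct_add (X Y : Module.End ℝ T.V) (c : Hlg T m) (a : Fin m → (T.V →ₗ[ℝ] ℂ)) :
    lieAct (X + Y) c a = lieAct X c a + lieAct Y c a := by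
  unfold lieAct
  rw [← Finset.sum_add_distrib]
  refine Finset.sum_congr rfl fun i _ => ?_
  have h : a i ∘ₗ (X + Y) = a i ∘ₗ X + a i ∘ₗ Y := LinearMap.comp_add _ _ _
  rw [h]
  exact c.map_update_add a i _ _

lemma lieAct_smul (r : ℝ) (X : Module.End ℝ T.V) (c : Hlg T m) (a : Fin m → (T.V →ₗ[ℝ] ℂ)) :
    lieAct (r • X) c a = (r : ℂ) * lieAct X c a := by
  unfold lieAct
  rw [Finset.mul_sum]
  refine Finset.sum_congr rfl fun i _ => ?_
  have h : a i ∘ₗ (r • X) = (r : ℂ) • (a i ∘ₗ X) := by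
    refine LinearMap.ext fun v => ?_
    show a i (r • X v) = (r : ℂ) • a i (X v)
    rw [map_smul, Complex.coe_smul]
  rw [h]
  exact c.map_update_smul a i _ _

/-- The endomorphisms that kill `c`. -/
def kill (c : Hlg T m) : Submodule ℝ (Module.End ℝ T.V) where
  carrier := {X | ∀ a, lieAct X c a = 0}
  zero_mem' a := by
    have h := lieAct_smul (0 : ℝ) (0 : Module.End ℝ T.V) c a
    rw [zero_smul] at h
    rw [h, Complex.ofReal_zero, zero_mul]
  add_mem' {X Y} hX hY a := by rw [lieAct_add, hX a, hY a, add_zero]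
  smul_mem' r X hX a := by rw [lieAct_smul, hX a, mul_zero]

lemma mem_kill {c : Hlg T m} {X : Module.End ℝ T.V} :
    X ∈ kill c ↔ ∀ a, lieAct X c a = 0 := Iff.rfl

end kill

/-! ### The endomorphisms `(X, Y)` of `A × B` -/

section prod

variable {A B : AV}

/-- The endomorphism `(X, Y)`. -/
def E (P : Pd A B) (X : Module.End ℝ A.V) (Y : Module.End ℝ B.V) : Module.End ℝ P.T.V where
  toFun v := P.ψ.symm (X (P.ψ v).1, Y (P.ψ v).2)
  map_add' v w := by
    rw [← map_add, map_add P.ψ]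
    congr 1
    refine Prod.ext ?_ ?_
    · exact map_add X _ _
    · exact map_add Y _ _
  map_smul' r v := by
    have h1 : P.ψ (r • v) = (r : ℂ) • P.ψ v := by
      rw [← map_smul]
      congr 1
    have h3 : (X ((r : ℂ) • P.ψ v).1, Y ((r : ℂ) • P.ψ v).2) =
        (r : ℂ) • (X (P.ψ v).1, Y (P.ψ v).2) := by
      refine Prod.ext ?_ ?_
      · show X ((r : ℂ) • (P.ψ v).1) = (r : ℂ) • X (P.ψ v).1
        rw [Complex.coe_smul, Complex.coe_smul, map_smul]
      · show Y ((r : ℂ) • (P.ψ v).2) = (r : ℂ) • Y (P.ψ v).2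
        rw [Complex.coe_smul, Complex.coe_smul, map_smul]
    show P.ψ.symm (X (P.ψ (r • v)).1, Y (P.ψ (r • v)).2) =
      r • P.ψ.symm (X (P.ψ v).1, Y (P.ψ v).2)
    rw [h1, h3, map_smul P.ψ.symm]
    exact Complex.coe_smul r _

lemma psi_E (P : Pd A B) (X : Module.End ℝ A.V) (Y : Module.End ℝ B.V) (v : P.T.V) :
    P.ψ (E P X Y v) = (X (P.ψ v).1, Y (P.ψ v).2) := P.ψ.apply_symm_apply _

lemma ext_psi (P : Pd A B) {Z Z' : Module.End ℝ P.T.V} (h : ∀ v, P.ψ (Z v) = P.ψ (Z' v)) :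
    Z = Z' := LinearMap.ext fun v => P.ψ.injective (h v)

lemma E_inj (P : Pd A B) {X X' : Module.End ℝ A.V} {Y Y' : Module.End ℝ B.V}
    (h : E P X Y = E P X' Y') : X = X' ∧ Y = Y' := by
  constructor
  · refine LinearMap.ext fun u => ?_
    have h2 := congrArg (fun Z : Module.End ℝ P.T.V => (P.ψ (Z (P.ψ.symm (u, 0)))).1) h
    simpa only [psi_E, LinearEquiv.apply_symm_apply] using h2
  · refine LinearMap.ext fun u => ?_
    have h2 := congrArg (fun Z : Module.End ℝ P.T.V => (P.ψ (Z (P.ψ.symm (0, u)))).2) h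
    simpa only [psi_E, LinearEquiv.apply_symm_apply] using h2

lemma E_add (P : Pd A B) (X X' : Module.End ℝ A.V) (Y Y' : Module.End ℝ B.V) :
    E P (X + X') (Y + Y') = E P X Y + E P X' Y' :=
  ext_psi P fun v => by
    rw [psi_E, LinearMap.add_apply (E P X Y), map_add, psi_E, psi_E]
    rfl

lemma E_smul (P : Pd A B) (r : ℝ) (X : Module.End ℝ A.V) (Y : Module.End ℝ B.V) :
    E P (r • X) (r • Y) = r • E P X Y :=
  ext_psi P fun v => by
    have h1 : P.ψ ((r • E P X Y) v) = (r : ℂ) • P.ψ (E P X Y v) := by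
      rw [← map_smul]
      congr 1
    rw [h1, psi_E, psi_E]
    refine Prod.ext ?_ ?_
    · exact (Complex.coe_smul r (X (P.ψ v).1)).symm
    · exact (Complex.coe_smul r (Y (P.ψ v).2)).symm

lemma E_mul (P : Pd A B) (X X' : Module.End ℝ A.V) (Y Y' : Module.End ℝ B.V) :
    E P (X * X') (Y * Y') = E P X Y * E P X' Y' :=
  ext_psi P fun v => by
    rw [psi_E, Module.End.mul_apply (E P X Y), psi_E, psi_E]
    rfl

/-- `(X, Y)` depends linearly on `(X, Y)`. -/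
def EL (P : Pd A B) : (Module.End ℝ A.V × Module.End ℝ B.V) →ₗ[ℝ] Module.End ℝ P.T.V where
  toFun p := E P p.1 p.2
  map_add' p q := E_add P p.1 q.1 p.2 q.2
  map_smul' r p := E_smul P r p.1 p.2

lemma EL_apply (P : Pd A B) (X : Module.End ℝ A.V) (Y : Module.End ℝ B.V) :
    EL P (X, Y) = E P X Y := rfl

lemma E_mulI (P : Pd A B) : E P (mulI A) (mulI B) = mulI P.T :=
  ext_psi P fun v => by
    rw [psi_E]
    exact (map_smul P.ψ Complex.I v).symm

lemma rat_left (P : Pd A B) {X : Module.End ℝ A.V} (h : RatEnd A X) :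
    RatEnd P.T (E P X 0) := by
  intro v hv
  obtain ⟨h1, h2⟩ := (P.lat v).1 hv
  obtain ⟨N, hN, h3⟩ := h _ h1
  refine ⟨N, hN, (P.lat _).2 ⟨?_, ?_⟩⟩
  · rw [map_nsmul, psi_E]
    exact h3
  · rw [map_nsmul, psi_E]
    show N • (0 : B.V) ∈ B.L
    rw [smul_zero]
    exact zero_mem _

lemma rat_right (P : Pd A B) {Y : Module.End ℝ B.V} (h : RatEnd B Y) :
    RatEnd P.T (E P 0 Y) := by
  intro v hv
  obtain ⟨h1, h2⟩ := (P.lat v).1 hv
  obtain ⟨N, hN, h3⟩ := h _ h2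
  refine ⟨N, hN, (P.lat _).2 ⟨?_, ?_⟩⟩
  · rw [map_nsmul, psi_E]
    show N • (0 : A.V) ∈ A.L
    rw [smul_zero]
    exact zero_mem _
  · rw [map_nsmul, psi_E]
    exact h3

lemma rat_of_right (P : Pd A B) {X : Module.End ℝ A.V} {Y : Module.End ℝ B.V}
    (h : RatEnd P.T (E P X Y)) : RatEnd B Y := by
  intro w hw
  have h1 : P.ψ.symm (0, w) ∈ P.T.L := by
    refine (P.lat _).2 ⟨?_, ?_⟩
    · rw [LinearEquiv.apply_symm_apply]
      exact zero_mem _
    · rw [LinearEquiv.apply_symm_apply]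
      exact hw
  obtain ⟨N, hN, h2⟩ := h _ h1
  refine ⟨N, hN, ?_⟩
  have h3 := ((P.lat _).1 h2).2
  rw [map_nsmul, psi_E, LinearEquiv.apply_symm_apply] at h3
  exact h3

lemma rat_bracket {B : AV} {X Y : Module.End ℝ B.V} (hX : RatEnd B X) (hY : RatEnd B Y) :
    RatEnd B (X * Y - Y * X) := by
  have key : ∀ {X Y : Module.End ℝ B.V}, RatEnd B X → RatEnd B Y → RatEnd B (X * Y) := by
    intro X Y hX hY v hv
    obtain ⟨N, hN, h1⟩ := hY v hv
    obtain ⟨N', hN', h2⟩ := hX _ h1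
    refine ⟨N' * N, mul_ne_zero hN' hN, ?_⟩
    rw [map_nsmul, smul_smul] at h2
    exact h2
  intro v hv
  obtain ⟨N, hN, h1⟩ := key hX hY v hv
  obtain ⟨N', hN', h2⟩ := key hY hX v hv
  refine ⟨N * N', mul_ne_zero hN hN', ?_⟩
  rw [LinearMap.sub_apply, smul_sub]
  refine sub_mem ?_ ?_
  · rw [mul_comm, mul_smul]
    exact B.L.smul_of_tower_mem N' h1
  · rw [mul_smul]
    exact B.L.smul_of_tower_mem N h2

end prod

end Lc3

open Lc3 in
/-- (c3) the two factors of `i` kill a Hodge class of `A × B`. -/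
theorem pLc3 (ha : S_La) (ha' : S_La') (hb : S_Lb) (h1 : S_Lc1) (h2 : S_Lc2) : S_Lc3 := by
  intro A B P hA hB m c hc
  -- the commuting rational endomorphisms of `A`
  obtain ⟨MA, hMr, hMc, hMs⟩ := h2 A hA
  let C : Subalgebra ℝ (Module.End ℝ A.V) := Subalgebra.centralizer ℝ (Set.centralizer MA)
  have hMC : ∀ X ∈ MA, X ∈ C := fun X hX =>
    Subalgebra.mem_centralizer_iff ℝ |>.2 fun g hg => (hg X hX).symm
  have hCc : ∀ X ∈ C, ∀ X' ∈ C, X * X' = X' * X := by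
    intro X hX X' hX'
    have h3 : X ∈ Set.centralizer MA := by
      intro g hg
      exact (Subalgebra.mem_centralizer_iff ℝ).1 hX g fun k hk => hMc k hk g hg
    exact (Subalgebra.mem_centralizer_iff ℝ).1 hX' X h3
  -- the rational endomorphisms of `A × B`
  let M : Set (Module.End ℝ P.T.V) := {Z | (∃ X ∈ MA, Z = E P X 0) ∨ ∃ Y, RatEnd B Y ∧ Z = E P 0 Y}
  have hMr' : ∀ Z ∈ M, RatEnd P.T Z := by
    rintro Z (⟨X, hX, rfl⟩ | ⟨Y, hY, rfl⟩)
    · exact rat_left P (hMr X hX)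
    · exact rat_right P hY
  have hJ : mulI P.T ∈ Submodule.span ℝ M := by
    have e1 : mulI P.T = E P (mulI A) 0 + E P 0 (mulI B) := by
      rw [← E_add, add_zero, zero_add, E_mulI]
    have e2 : Submodule.span ℝ MA ≤
        (Submodule.span ℝ M).comap (EL P ∘ₗ LinearMap.inl ℝ _ _) := by
      refine Submodule.span_le.2 fun X hX => ?_
      exact Submodule.subset_span (Or.inl ⟨X, hX, rfl⟩)
    have e3 : Submodule.span ℝ {Y | RatEnd B Y} ≤
        (Submodule.span ℝ M).comap (EL P ∘ₗ LinearMap.inr ℝ _ _) := by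
      refine Submodule.span_le.2 fun Y hY => ?_
      exact Submodule.subset_span (Or.inr ⟨Y, hY, rfl⟩)
    rw [e1]
    exact Submodule.add_mem _ (e2 hMs) (e3 (h1 B))
  obtain ⟨n, ρ, Z, hZJ, hZr, hZM, hZc⟩ := hb P.T (mulI P.T) M hMr' hJ
  have hZk : ∀ s, Z s ∈ kill c := fun s => hZc m c hc.1 (ha P.T m c hc) s
  -- the components
  have hZE : ∀ s, ∃ X ∈ C, ∃ Y, Z s = E P X Y := by
    intro s
    refine AddSubgroup.closure_induction (p := fun Z _ => ∃ X ∈ C, ∃ Y, Z = E P X Y)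
      ?_ ?_ ?_ ?_ (hZM s)
    · rintro _ ⟨W, (⟨X, hX, rfl⟩ | ⟨Y, hY, rfl⟩), q, rfl⟩
      · refine ⟨(q : ℝ) • X, C.smul_mem (hMC X hX) _, (q : ℝ) • 0, ?_⟩
        rw [E_smul]
      · refine ⟨(q : ℝ) • 0, C.smul_mem C.zero_mem _, (q : ℝ) • Y, ?_⟩
        rw [E_smul]
    · exact ⟨0, C.zero_mem, 0, (map_zero (EL P)).symm⟩
    · rintro _ _ _ _ ⟨X, hX, Y, rfl⟩ ⟨X', hX', Y', rfl⟩
      exact ⟨X + X', C.add_mem hX hX', Y + Y', (E_add P X X' Y Y').symm⟩
    · rintro _ _ ⟨X, hX, Y, rfl⟩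
      exact ⟨-X, C.neg_mem hX, -Y, (map_neg (EL P) (X, Y)).symm⟩
  choose X hXC Y hXY using hZE
  -- the Lie algebra of `B`
  let h : Set (Module.End ℝ B.V) := {Y | RatEnd B Y ∧ ∃ X ∈ C, E P X Y ∈ kill c}
  have hbr : ∀ {X X' : Module.End ℝ A.V} {Y Y' : Module.End ℝ B.V}, X ∈ C → X' ∈ C →
      E P X Y ∈ kill c → E P X' Y' ∈ kill c → E P 0 (Y * Y' - Y' * Y) ∈ kill c := by
    intro X X' Y Y' hX hX' h3 h4
    have h5 := ha' P.T m c _ _ h3 h4
    have h6 : E P X Y * E P X' Y' - E P X' Y' * E P X Y = E P 0 (Y * Y' - Y' * Y) := by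
      rw [← E_mul, ← E_mul, ← EL_apply, ← EL_apply, ← map_sub]
      show E P (X * X' - X' * X) (Y * Y' - Y' * Y) = _
      rw [hCc X hX X' hX', sub_self]
    rw [h6] at h5
    exact h5
  have hh1 : ∀ Y ∈ h, RatEnd B Y := fun Y hY => hY.1
  have hh2 : ∀ Y ∈ h, ∀ Y' ∈ h, Y * Y' - Y' * Y ∈ h := by
    rintro Y ⟨hY, X, hX, h3⟩ Y' ⟨hY', X', hX', h4⟩
    exact ⟨rat_bracket hY hY', 0, C.zero_mem, hbr hX hX' h3 h4⟩
  have hYs : ∀ s, Y s ∈ h := by
    intro s
    refine ⟨rat_of_right P (X := X s) ?_, X s, hXC s, ?_⟩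
    · rw [← hXY s]
      exact hZr s
    · rw [← hXY s]
      exact hZk s
  have hJB : mulI B = ∑ s, ρ s • Y s := by
    have h3 : E P (mulI A) (mulI B) = E P (∑ s, ρ s • X s) (∑ s, ρ s • Y s) := by
      rw [E_mulI, hZJ]
      have h4 : (∑ s, ρ s • X s, ∑ s, ρ s • Y s) = ∑ s, ρ s • (X s, Y s) := by
        refine Prod.ext ?_ ?_
        · rw [Prod.fst_sum]
          rfl
        · rw [Prod.snd_sum]
          rfl
      rw [← EL_apply, h4, map_sum]
      refine Finset.sum_congr rfl fun s _ => ?_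
      rw [map_smul, EL_apply, hXY s]
    exact (E_inj P h3).2
  have hh3 : mulI B ∈ Submodule.span ℝ h := by
    rw [hJB]
    exact Submodule.sum_mem _ fun s _ => Submodule.smul_mem _ _ (Submodule.subset_span (hYs s))
  have h5 := hB h hh1 hh2 hh3
  have h6 : Submodule.span ℝ {Z | ∃ X ∈ h, ∃ Y ∈ h, Z = X * Y - Y * X} ≤
      (kill c).comap (EL P ∘ₗ LinearMap.inr ℝ _ _) := by
    refine Submodule.span_le.2 ?_
    rintro _ ⟨Y, ⟨-, X, hX, h3⟩, Y', ⟨-, X', hX', h4⟩, rfl⟩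
    exact hbr hX hX' h3 h4
  have h7 : E P 0 (mulI B) ∈ kill c := h6 h5
  have h8 : E P (mulI A) 0 ∈ kill c := by
    have h9 : E P (mulI A) 0 = mulI P.T - E P 0 (mulI B) := by
      rw [eq_sub_iff_add_eq, ← E_add, add_zero, zero_add, E_mulI]
    rw [h9]
    exact Submodule.sub_mem _ (ha P.T m c hc) h7
  refine ⟨fun W hW => ?_, fun W hW => ?_⟩
  · have h9 : W = E P (mulI A) 0 := ext_psi P fun v => by
      rw [hW v, psi_E]
      rfl
    rw [h9]
    exact h8
  · have h9 : W = E P 0 (mulI B) := ext_psi P fun v => by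
      rw [hW v, psi_E]
      rfl
    rw [h9]
    exact h7

end HC
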