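import Mathlib

/-!
PROJECT HC+ (helper74): the group lemma: a symmetric function of words in two alphabets.
-/

set_option autoImplicit false

namespace HC

/-- The word in two alphabets as a map of sums. -/
theorem append_sum {p q : ℕ} {κA κB : Type*} (u : Fin p → κA) (v : Fin q → κB)
    (k : Fin p ⊕ Fin q) : Fin.append (fun j => (Sum.inl (u j) : κA ⊕ κB))
      (fun j => Sum.inr (v j)) (finSumFinEquiv k) = Sum.map u v k := by
  rcases k with k | k
  · rw [finSumFinEquiv_apply_left, Fin.append_left, Sum.map_inl]
  · rw [finSumFinEquiv_apply_right, Fin.append_right, Sum.map_inr]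

theorem grp {m : ℕ} {κA κB M : Type*} [Fintype κA] [Fintype κB] [AddCommMonoid M]
    (N : AddSubmonoid M) (F : (Fin m → κA ⊕ κB) → M)
    (hF : ∀ s (σ : Equiv.Perm (Fin m)), F (s ∘ σ) = F s)
    (h : ∀ (p q : ℕ) (e : p + q = m), ∑ u : Fin p → κA, ∑ v : Fin q → κB,
      F (fun i => Fin.append (fun j => Sum.inl (u j)) (fun j => Sum.inr (v j))
        (Fin.cast e.symm i)) ∈ N) : ∑ s, F s ∈ N := by
  classical
  rw [← Finset.sum_fiberwise (s := Finset.univ)
    (g := fun (s : Fin m → κA ⊕ κB) (i : Fin m) => (s i).isLeft)]
  refine N.sum_mem fun t _ => ?_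
  set p := Fintype.card {i // t i = true} with hp
  set q := Fintype.card {i // ¬ t i = true} with hq
  let e : Fin p ⊕ Fin q ≃ Fin m := (Equiv.sumCongr (Fintype.equivFin {i // t i = true}).symm
    (Fintype.equivFin {i // ¬ t i = true}).symm).trans (Equiv.sumCompl fun i => t i = true)
  have e1 : ∀ a, t (e (Sum.inl a)) = true := fun a =>
    ((Fintype.equivFin {i // t i = true}).symm a).2
  have e2 : ∀ b, ¬ t (e (Sum.inr b)) = true := fun b =>
    ((Fintype.equivFin {i // ¬ t i = true}).symm b).2
  have hpq : p + q = m := by
    have := Fintype.card_congr e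
    simpa using this
  let σ : Equiv.Perm (Fin m) := (finCongr hpq.symm).trans (finSumFinEquiv.symm.trans e)
  have hG : ∀ (u : Fin p → κA) (v : Fin q → κB),
      (fun i => Fin.append (fun j => (Sum.inl (u j) : κA ⊕ κB)) (fun j => Sum.inr (v j))
        (Fin.cast hpq.symm i)) = (Sum.map u v ∘ e.symm) ∘ σ := by
    intro u v
    funext i
    obtain ⟨k, hk⟩ := finSumFinEquiv.surjective (Fin.cast hpq.symm i)
    have h1 : σ i = e k := by
      show e (finSumFinEquiv.symm (Fin.cast hpq.symm i)) = e k
      rw [← hk, Equiv.symm_apply_apply]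
    show _ = Sum.map u v (e.symm (σ i))
    rw [h1, Equiv.symm_apply_apply, ← hk, append_sum]
  have key : ∑ s with (fun i => (s i).isLeft) = t, F s =
      ∑ u : Fin p → κA, ∑ v : Fin q → κB, F (fun i => Fin.append (fun j => Sum.inl (u j))
        (fun j => Sum.inr (v j)) (Fin.cast hpq.symm i)) := by
    rw [← Fintype.sum_prod_type' (fun (u : Fin p → κA) (v : Fin q → κB) =>
      F (fun i => Fin.append (fun j => Sum.inl (u j))
        (fun j => Sum.inr (v j)) (Fin.cast hpq.symm i)))]
    symm
    refine Finset.sum_bij (fun x _ => Sum.map x.1 x.2 ∘ e.symm) ?_ ?_ ?_ ?_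
    · intro x _
      rw [Finset.mem_filter]
      refine ⟨Finset.mem_univ _, ?_⟩
      funext i
      obtain ⟨k, rfl⟩ := e.surjective i
      show (Sum.map x.1 x.2 (e.symm (e k))).isLeft = _
      rw [Equiv.symm_apply_apply]
      rcases k with k | k
      · rw [e1]
        rfl
      · have := e2 k
        rw [Bool.not_eq_true] at this
        rw [this]
        rfl
    · intro x _ y _ hxy
      have h1 : ∀ k, Sum.map x.1 x.2 k = Sum.map y.1 y.2 k := by
        intro k
        have := congrFun hxy (e k)
        simpa using this
      refine Prod.ext (funext fun a => ?_) (funext fun b => ?_)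
      · have := h1 (Sum.inl a)
        exact Sum.inl_injective this
      · have := h1 (Sum.inr b)
        exact Sum.inr_injective this
    · intro s hs
      rw [Finset.mem_filter] at hs
      have h1 : ∀ a, ∃ x, s (e (Sum.inl a)) = Sum.inl x := by
        intro a
        have := congrFun hs.2 (e (Sum.inl a))
        rw [e1] at this
        rcases hx : s (e (Sum.inl a)) with x | x
        · exact ⟨x, rfl⟩
        · rw [hx] at this
          simp at this
      have h2 : ∀ b, ∃ x, s (e (Sum.inr b)) = Sum.inr x := by
        intro b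
        have := congrFun hs.2 (e (Sum.inr b))
        have h3 := e2 b
        rw [Bool.not_eq_true] at h3
        rw [h3] at this
        rcases hx : s (e (Sum.inr b)) with x | x
        · rw [hx] at this
          simp at this
        · exact ⟨x, rfl⟩
      choose u hu using h1
      choose v hv using h2
      refine ⟨(u, v), Finset.mem_univ _, ?_⟩
      funext i
      obtain ⟨k, rfl⟩ := e.surjective i
      show Sum.map u v (e.symm (e k)) = _
      rw [Equiv.symm_apply_apply]
      rcases k with k | k
      · rw [hu]
        rfl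
      · rw [hv]
        rfl
    · intro x _
      rw [hG, hF]
  rw [key]
  exact h p q hpq

end HC
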