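import Pool.Agent.Lib.HC.L.Defs
import Pool.Agent.Lib.HC.B.Main
import Pool.Agent.Lib.HC.B.Cap
import Pool.Agent.Lib.HC.P.Wtl

/-!
PROJECT HC+ (helper74): the Kuenneth formula, preparations for `S_Le`: rational basis of the
1-forms, basis of the 1-forms of a product, the exterior product of classes of the factors.
-/

set_option autoImplicit false

noncomputable section

open scoped TensorProduct

namespace HC

open Fund

/-! ### A rational basis of the 1-forms -/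

/-- The basis of the 1-forms dual to a basis of the lattice. -/
def bW (T : AV) : Module.Basis (Ix T) ℂ (T.V →ₗ[ℝ] ℂ) :=
  Module.Basis.ofEquivFun ((bR T).constr ℂ).symm

theorem bW_apply (T : AV) (i : Ix T) (v : T.V) : bW T i v = (((bR T).repr v i : ℝ) : ℂ) := by
  classical
  unfold bW
  rw [Module.Basis.coe_ofEquivFun, LinearEquiv.symm_symm, Module.Basis.constr_apply_fintype,
    Finset.sum_eq_single i]
  · rw [Pi.single_eq_same, Module.Basis.equivFun_apply]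
    simp
  · intro j _ hj
    rw [Pi.single_eq_of_ne hj, smul_zero]
  · intro h
    exact absurd (Finset.mem_univ i) h

theorem bW_rat (T : AV) (i : Ix T) (v : T.V) (hv : v ∈ T.L) : ∃ x : ℚ, bW T i v = x := by
  refine ⟨((bZ T).repr ⟨v, hv⟩ i : ℚ), ?_⟩
  rw [bW_apply]
  have h := (bZ T).ofZLatticeBasis_repr_apply ℝ T.L ⟨v, hv⟩ i
  unfold bR
  rw [h]
  push_cast
  rfl

/-! ### Products -/

variable {A B : AV} (P : Pd A B)

def Pd.iA : A.V →ₗ[ℂ] P.T.V := P.ψ.symm.toLinearMap ∘ₗ LinearMap.inl ℂ A.V B.V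
def Pd.iB : B.V →ₗ[ℂ] P.T.V := P.ψ.symm.toLinearMap ∘ₗ LinearMap.inr ℂ A.V B.V
def Pd.pA : P.T.V →ₗ[ℂ] A.V := LinearMap.fst ℂ A.V B.V ∘ₗ P.ψ.toLinearMap
def Pd.pB : P.T.V →ₗ[ℂ] B.V := LinearMap.snd ℂ A.V B.V ∘ₗ P.ψ.toLinearMap

theorem Pd.pA_apply (v : P.T.V) : P.pA v = (P.ψ v).1 := rfl
theorem Pd.pB_apply (v : P.T.V) : P.pB v = (P.ψ v).2 := rfl

theorem Pd.psi_iA (v : A.V) : P.ψ (P.iA v) = (v, 0) := P.ψ.apply_symm_apply _
theorem Pd.psi_iB (v : B.V) : P.ψ (P.iB v) = (0, v) := P.ψ.apply_symm_apply _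

theorem Pd.iA_mem (v : A.V) (hv : v ∈ A.L) : P.iA v ∈ P.T.L := by
  rw [P.lat, P.psi_iA]
  exact ⟨hv, B.L.zero_mem⟩

theorem Pd.iB_mem (v : B.V) (hv : v ∈ B.L) : P.iB v ∈ P.T.L := by
  rw [P.lat, P.psi_iB]
  exact ⟨A.L.zero_mem, hv⟩

theorem Pd.split (v : P.T.V) : P.iA (P.pA v) + P.iB (P.pB v) = v := by
  apply P.ψ.injective
  rw [map_add, P.psi_iA, P.psi_iB, P.pA_apply, P.pB_apply]
  ext <;> simp

/-- The 1-forms of a product. -/
def Pd.eW : ((A.V →ₗ[ℝ] ℂ) × (B.V →ₗ[ℝ] ℂ)) ≃ₗ[ℂ] (P.T.V →ₗ[ℝ] ℂ) :=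
  LinearEquiv.ofLinearMap (LinearMap.coprod (pull P.pA) (pull P.pB))
    (LinearMap.prod (pull P.iA) (pull P.iB))
    (by
      refine LinearMap.ext fun w => LinearMap.ext fun v => ?_
      show w (P.iA (P.pA v)) + w (P.iB (P.pB v)) = w v
      rw [← map_add, P.split])
    (by
      refine LinearMap.ext fun x => ?_
      refine Prod.ext (LinearMap.ext fun v => ?_) (LinearMap.ext fun v => ?_)
      · show x.1 (P.pA (P.iA v)) + x.2 (P.pB (P.iA v)) = x.1 v
        rw [P.pA_apply, P.pB_apply, P.psi_iA, map_zero, add_zero]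
      · show x.1 (P.pA (P.iB v)) + x.2 (P.pB (P.iB v)) = x.2 v
        rw [P.pA_apply, P.pB_apply, P.psi_iB, map_zero, zero_add])

/-- The basis of the 1-forms of a product. -/
def Pd.bas {κA κB : Type} (bA : Module.Basis κA ℂ (A.V →ₗ[ℝ] ℂ))
    (bB : Module.Basis κB ℂ (B.V →ₗ[ℝ] ℂ)) : Module.Basis (κA ⊕ κB) ℂ (P.T.V →ₗ[ℝ] ℂ) :=
  (bA.prod bB).map P.eW

variable {κA κB : Type} (bA : Module.Basis κA ℂ (A.V →ₗ[ℝ] ℂ))
    (bB : Module.Basis κB ℂ (B.V →ₗ[ℝ] ℂ))

theorem Pd.bas_inl (i : κA) : P.bas bA bB (Sum.inl i) = pull P.pA (bA i) := by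
  unfold Pd.bas
  rw [Module.Basis.map_apply, Module.Basis.prod_apply]
  show pull P.pA (bA i) + pull P.pB 0 = _
  rw [map_zero, add_zero]

theorem Pd.bas_inr (i : κB) : P.bas bA bB (Sum.inr i) = pull P.pB (bB i) := by
  unfold Pd.bas
  rw [Module.Basis.map_apply, Module.Basis.prod_apply]
  show pull P.pA 0 + pull P.pB (bB i) = _
  rw [map_zero, zero_add]

theorem Pd.coord_inl (i : κA) :
    (P.bas bA bB).coord (Sum.inl i) = bA.coord i ∘ₗ pull P.iA := by
  refine LinearMap.ext fun w => ?_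
  unfold Pd.bas
  rw [Module.Basis.coord_apply, Module.Basis.map_repr]
  show (bA.prod bB).repr (P.eW.symm w) (Sum.inl i) = _
  rw [Module.Basis.prod_repr_inl]
  rfl

theorem Pd.coord_inr (i : κB) :
    (P.bas bA bB).coord (Sum.inr i) = bB.coord i ∘ₗ pull P.iB := by
  refine LinearMap.ext fun w => ?_
  unfold Pd.bas
  rw [Module.Basis.coord_apply, Module.Basis.map_repr]
  show (bA.prod bB).repr (P.eW.symm w) (Sum.inr i) = _
  rw [Module.Basis.prod_repr_inr]
  rfl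

/-! ### Bilinearity of the Pontryagin product -/

/-- The Pontryagin product as a bilinear map. -/
def pontL (T : AV) (m n : ℕ) : Hlg T m →ₗ[ℂ] Hlg T n →ₗ[ℂ] Hlg T (m + n) :=
  LinearMap.mk₂ ℂ (fun c d => pont c d)
    (fun c c' d => by
      ext a
      simp [pont, ← AlternatingMap.domCoprod'_apply, TensorProduct.add_tmul])
    (fun x c d => by
      have h : (x • c) ⊗ₜ[ℂ] d = x • (c ⊗ₜ[ℂ] d) := (TensorProduct.smul_tmul' x c d).symm
      ext a
      simp [pont, ← AlternatingMap.domCoprod'_apply, h])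
    (fun c d d' => by
      ext a
      simp [pont, ← AlternatingMap.domCoprod'_apply, TensorProduct.tmul_add])
    (fun x c d => by
      ext a
      simp [pont, ← AlternatingMap.domCoprod'_apply])

theorem pontL_apply {T : AV} {m n : ℕ} (c : Hlg T m) (d : Hlg T n) :
    pontL T m n c d = pont c d := rfl

/-- The exterior product of classes of the factors. -/
def Pd.kap (p q : ℕ) : Hlg A p →ₗ[ℂ] Hlg B q →ₗ[ℂ] Hlg P.T (p + q) :=
  (pontL P.T p q).compl₁₂ (pushL (T' := P.T) P.iA) (pushL (T' := P.T) P.iB)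

theorem Pd.kap_apply {p q : ℕ} (c : Hlg A p) (d : Hlg B q) :
    P.kap p q c d = pont (push (T' := P.T) P.iA c) (push (T' := P.T) P.iB d) := rfl

theorem Pd.kap_alg {p q : ℕ} {c : Hlg A p} {d : Hlg B q} (hc : Alg A p c) (hd : Alg B q d) :
    Alg P.T (p + q) (P.kap p q c d) :=
  Alg.pont (Alg.push P.iA P.iA_mem hc) (Alg.push P.iB P.iB_mem hd)

theorem Pd.kap_wd {p q : ℕ} (f : Fin p → Module.Dual ℂ (A.V →ₗ[ℝ] ℂ))
    (g : Fin q → Module.Dual ℂ (B.V →ₗ[ℝ] ℂ)) : P.kap p q (wd f) (wd g) =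
      wd (Fin.append (fun i => f i ∘ₗ pull P.iA) (fun i => g i ∘ₗ pull P.iB)) := by
  rw [P.kap_apply, push_wd, push_wd, pont_wd]

/-! ### Linear algebra -/

/-- A tensor with both slices in subspaces. -/
theorem slice {X Y Z : Type*} [AddCommGroup X] [Module ℂ X] [AddCommGroup Y] [Module ℂ Y]
    [AddCommGroup Z] [Module ℂ Z] (X' : Submodule ℂ X) (Y' : Submodule ℂ Y) (N : Submodule ℂ Z)
    (κ : X →ₗ[ℂ] Y →ₗ[ℂ] Z) (hκ : ∀ x ∈ X', ∀ y ∈ Y', κ x y ∈ N) {U V : Type*} [Fintype U]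
    [Fintype V] (C : U → V → ℂ) (x : U → X) (y : V → Y) (hx : ∀ v, ∑ u, C u v • x u ∈ X')
    (hy : ∀ u, ∑ v, C u v • y v ∈ Y') : ∑ u, ∑ v, C u v • κ (x u) (y v) ∈ N := by
  obtain ⟨π, hπ⟩ := X'.subtype.exists_leftInverse_of_injective X'.ker_subtype
  obtain ⟨ρ, hρ⟩ := Y'.subtype.exists_leftInverse_of_injective Y'.ker_subtype
  have hπ' : ∀ z ∈ X', ((π z : X') : X) = z := by
    intro z hz
    have := LinearMap.congr_fun hπ ⟨z, hz⟩
    exact congrArg Subtype.val this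
  have hρ' : ∀ z ∈ Y', ((ρ z : Y') : Y) = z := by
    intro z hz
    have := LinearMap.congr_fun hρ ⟨z, hz⟩
    exact congrArg Subtype.val this
  have e1 : ∑ u, ∑ v, C u v • κ (x u) (y v) = ∑ u, ∑ v, C u v • κ (π (x u) : X') (y v) := by
    rw [Finset.sum_comm]
    conv_rhs => rw [Finset.sum_comm]
    refine Finset.sum_congr rfl fun v _ => ?_
    have h1 : ∑ u, C u v • κ (x u) (y v) = κ (∑ u, C u v • x u) (y v) := by
      rw [map_sum, LinearMap.sum_apply]
      exact Finset.sum_congr rfl fun u _ => by rw [map_smul, LinearMap.smul_apply]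
    have h2 : ∑ u, C u v • κ (π (x u) : X') (y v) =
        κ ((π (∑ u, C u v • x u) : X') : X) (y v) := by
      rw [map_sum, Submodule.coe_sum, map_sum, LinearMap.sum_apply]
      refine Finset.sum_congr rfl fun u _ => ?_
      rw [map_smul, Submodule.coe_smul, map_smul, LinearMap.smul_apply]
    rw [h1, h2, hπ' _ (hx v)]
  have e2 : ∑ u, ∑ v, C u v • κ (π (x u) : X') (y v) =
      ∑ u, ∑ v, C u v • κ (π (x u) : X') (ρ (y v) : Y') := by
    refine Finset.sum_congr rfl fun u _ => ?_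
    have h1 : ∑ v, C u v • κ (π (x u) : X') (y v) = κ (π (x u) : X') (∑ v, C u v • y v) := by
      rw [map_sum]
      exact Finset.sum_congr rfl fun v _ => by rw [map_smul]
    have h2 : ∑ v, C u v • κ (π (x u) : X') (ρ (y v) : Y') =
        κ (π (x u) : X') ((ρ (∑ v, C u v • y v) : Y') : Y) := by
      rw [map_sum, Submodule.coe_sum, map_sum]
      refine Finset.sum_congr rfl fun v _ => ?_
      rw [map_smul, Submodule.coe_smul, map_smul]
    rw [h1, h2, hρ' _ (hy u)]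
  rw [e1, e2]
  exact Submodule.sum_mem _ fun u _ => Submodule.sum_mem _ fun v _ =>
    Submodule.smul_mem _ _ (hκ _ (π (x u)).2 _ (ρ (y v)).2)

end HC
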