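import Pool.Agent.Lib.HC.L.Kb
import Pool.Agent.Lib.HC.L.Grp

/-!
PROJECT HC+ (helper74): the Kuenneth formula, `S_Le`.
-/

set_option autoImplicit false

noncomputable section

namespace HC

variable {T A B : AV} {p q : ℕ}

theorem app_upd_left {M : Type*} (f : Fin p → M) (g : Fin q → M) (i : Fin p) (x : M) :
    Fin.append (Function.update f i x) g =
      Function.update (Fin.append f g) (Fin.castAdd q i) x := by
  funext k
  refine Fin.addCases (fun j => ?_) (fun j => ?_) k
  · rw [Fin.append_left]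
    by_cases h : j = i
    · subst h
      rw [Function.update_self, Function.update_self]
    · rw [Function.update_of_ne h, Function.update_of_ne, Fin.append_left]
      intro h'
      exact h (Fin.castAdd_injective _ _ h')
  · rw [Fin.append_right, Function.update_of_ne, Fin.append_right]
    intro h'
    have := congrArg Fin.val h'
    simp at this
    omega

theorem app_upd_right {M : Type*} (f : Fin p → M) (g : Fin q → M) (i : Fin q) (x : M) :
    Fin.append f (Function.update g i x) =
      Function.update (Fin.append f g) (Fin.natAdd p i) x := by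
  funext k
  refine Fin.addCases (fun j => ?_) (fun j => ?_) k
  · rw [Fin.append_left, Function.update_of_ne, Fin.append_left]
    intro h'
    have := congrArg Fin.val h'
    simp at this
    omega
  · rw [Fin.append_right]
    by_cases h : j = i
    · subst h
      rw [Function.update_self, Function.update_self]
    · rw [Function.update_of_ne h, Function.update_of_ne, Fin.append_right]
      intro h'
      exact h (Fin.natAdd_injective _ _ h')

theorem comp_upd {M N : Type*} (φ : M → N) (f : Fin p → M) (i : Fin p) (x : M) :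
    (fun j => φ (Function.update f i x j)) = Function.update (fun j => φ (f j)) i (φ x) := by
  funext j
  by_cases h : j = i
  · subst h
    rw [Function.update_self, Function.update_self]
  · rw [Function.update_of_ne h, Function.update_of_ne h]

/-- A slice of a class. -/
def slA (c : Hlg T (p + q)) (φ : (A.V →ₗ[ℝ] ℂ) →ₗ[ℂ] (T.V →ₗ[ℝ] ℂ))
    (β : Fin q → (T.V →ₗ[ℝ] ℂ)) : Hlg A p where
  toFun α := c (Fin.append (fun i => φ (α i)) β)
  map_update_add' {hd} α i x y := by
    have : hd = instDecidableEqFin p := Subsingleton.elim _ _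
    subst this
    rw [comp_upd, comp_upd, comp_upd, app_upd_left, app_upd_left, app_upd_left, map_add,
      AlternatingMap.map_update_add]
  map_update_smul' {hd} α i x y := by
    have : hd = instDecidableEqFin p := Subsingleton.elim _ _
    subst this
    rw [comp_upd, comp_upd, app_upd_left, app_upd_left, map_smul,
      AlternatingMap.map_update_smul]
  map_eq_zero_of_eq' α i j h hij := by
    refine c.map_eq_zero_of_eq _ (i := Fin.castAdd q i) (j := Fin.castAdd q j) ?_ ?_
    · rw [Fin.append_left, Fin.append_left, h]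
    · exact fun h' => hij (Fin.castAdd_injective _ _ h')

/-- A slice of a class. -/
def slB (c : Hlg T (p + q)) (φ : (B.V →ₗ[ℝ] ℂ) →ₗ[ℂ] (T.V →ₗ[ℝ] ℂ))
    (α : Fin p → (T.V →ₗ[ℝ] ℂ)) : Hlg B q where
  toFun β := c (Fin.append α (fun i => φ (β i)))
  map_update_add' {hd} β i x y := by
    have : hd = instDecidableEqFin q := Subsingleton.elim _ _
    subst this
    rw [comp_upd, comp_upd, comp_upd, app_upd_right, app_upd_right, app_upd_right, map_add,
      AlternatingMap.map_update_add]
  map_update_smul' {hd} β i x y := by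
    have : hd = instDecidableEqFin q := Subsingleton.elim _ _
    subst this
    rw [comp_upd, comp_upd, app_upd_right, app_upd_right, map_smul,
      AlternatingMap.map_update_smul]
  map_eq_zero_of_eq' β i j h hij := by
    refine c.map_eq_zero_of_eq _ (i := Fin.natAdd p i) (j := Fin.natAdd p j) ?_ ?_
    · rw [Fin.append_right, Fin.append_right, h]
    · exact fun h' => hij (Fin.natAdd_injective _ _ h')

theorem slA_apply (c : Hlg T (p + q)) (φ : (A.V →ₗ[ℝ] ℂ) →ₗ[ℂ] (T.V →ₗ[ℝ] ℂ))
    (β : Fin q → (T.V →ₗ[ℝ] ℂ)) (α : Fin p → (A.V →ₗ[ℝ] ℂ)) :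
    slA (A := A) c φ β α = c (Fin.append (fun i => φ (α i)) β) := rfl

theorem slB_apply (c : Hlg T (p + q)) (φ : (B.V →ₗ[ℝ] ℂ) →ₗ[ℂ] (T.V →ₗ[ℝ] ℂ))
    (α : Fin p → (T.V →ₗ[ℝ] ℂ)) (β : Fin q → (B.V →ₗ[ℝ] ℂ)) :
    slB (B := B) c φ α β = c (Fin.append α (fun i => φ (β i))) := rfl

variable (P : Pd A B)

/-- Invariance under the two circles. -/
def TwoInv {m : ℕ} (c : Hlg P.T m) : Prop :=
  ∀ (u w : ℂ), ‖u‖ = 1 → ‖w‖ = 1 → ∀ φ : P.T.V →ₗ[ℂ] P.T.V,
      (∀ v, P.ψ (φ v) = (u • (P.ψ v).1, w • (P.ψ v).2)) → push (T' := P.T) φ c = c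

/-- The map `(u, w)`. -/
def Pd.dg (u w : ℂ) : P.T.V →ₗ[ℂ] P.T.V :=
  P.ψ.symm.toLinearMap ∘ₗ (LinearMap.prodMap (u • LinearMap.id) (w • LinearMap.id)) ∘ₗ
    P.ψ.toLinearMap

theorem Pd.psi_dg (u w : ℂ) (v : P.T.V) : P.ψ (P.dg u w v) = (u • (P.ψ v).1, w • (P.ψ v).2) :=
  P.ψ.apply_symm_apply _

theorem Pd.pull_pA_dg (u w : ℂ) (a : A.V →ₗ[ℝ] ℂ) :
    pull (P.dg u w) (pull P.pA a) = pull P.pA (pull (u • LinearMap.id) a) := by
  refine LinearMap.ext fun v => ?_
  show a (P.pA (P.dg u w v)) = a (u • P.pA v)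
  rw [P.pA_apply, P.psi_dg, P.pA_apply]

theorem Pd.pull_pB_dg (u w : ℂ) (a : B.V →ₗ[ℝ] ℂ) :
    pull (P.dg u w) (pull P.pB a) = pull P.pB (pull (w • LinearMap.id) a) := by
  refine LinearMap.ext fun v => ?_
  show a (P.pB (P.dg u w v)) = a (w • P.pB v)
  rw [P.pB_apply, P.psi_dg, P.pB_apply]

theorem pull_one_id {V : Type} [AddCommGroup V] [Module ℂ V] (a : V →ₗ[ℝ] ℂ) :
    pull ((1 : ℂ) • LinearMap.id) a = a := by
  rw [one_smul]
  rfl

/-- The slices of a Hodge class invariant under the two circles. -/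
theorem slA_hodge {c : Hlg P.T (p + q)} (hc : IsHodge P.T (p + q) c) (hi : TwoInv P c)
    (β : Fin q → (B.V →ₗ[ℝ] ℂ)) (hβ : ∀ j, ∀ v ∈ B.L, ∃ x : ℚ, β j v = x) :
    IsHodge A p (slA (A := A) c (pull P.pA) fun j => pull P.pB (β j)) := by
  refine ⟨fun a ha => ?_, fun u hu => ?_⟩
  · rw [slA_apply]
    refine hc.1 _ fun i v hv => ?_
    have hv' := (P.lat v).1 hv
    refine Fin.addCases (fun j => ?_) (fun j => ?_) i
    · rw [Fin.append_left]
      exact ha j _ hv'.1
    · rw [Fin.append_right]
      exact hβ j _ hv'.2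
  · ext a
    rw [push_apply, slA_apply, slA_apply]
    have h := hi u 1 hu (by simp) (P.dg u 1) (P.psi_dg u 1)
    conv_rhs => rw [← h, push_apply]
    congr 1
    funext i
    refine Fin.addCases (fun j => ?_) (fun j => ?_) i
    · rw [Fin.append_left, Fin.append_left, P.pull_pA_dg]
    · rw [Fin.append_right, Fin.append_right, P.pull_pB_dg, pull_one_id]

theorem slB_hodge {c : Hlg P.T (p + q)} (hc : IsHodge P.T (p + q) c) (hi : TwoInv P c)
    (α : Fin p → (A.V →ₗ[ℝ] ℂ)) (hα : ∀ j, ∀ v ∈ A.L, ∃ x : ℚ, α j v = x) :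
    IsHodge B q (slB (B := B) c (pull P.pB) fun j => pull P.pA (α j)) := by
  refine ⟨fun a ha => ?_, fun u hu => ?_⟩
  · rw [slB_apply]
    refine hc.1 _ fun i v hv => ?_
    have hv' := (P.lat v).1 hv
    refine Fin.addCases (fun j => ?_) (fun j => ?_) i
    · rw [Fin.append_left]
      exact hα j _ hv'.1
    · rw [Fin.append_right]
      exact ha j _ hv'.2
  · ext a
    rw [push_apply, slB_apply, slB_apply]
    have h := hi 1 u (by simp) hu (P.dg 1 u) (P.psi_dg 1 u)
    conv_rhs => rw [← h, push_apply]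
    congr 1
    funext i
    refine Fin.addCases (fun j => ?_) (fun j => ?_) i
    · rw [Fin.append_left, Fin.append_left, P.pull_pA_dg, pull_one_id]
    · rw [Fin.append_right, Fin.append_right, P.pull_pB_dg]

/-- The component of bidegree `(p, q)`. -/
theorem comp_alg {c : Hlg P.T (p + q)} (hc : IsHodge P.T (p + q) c) (hi : TwoInv P c)
    (hA : HCj A) (hB : HCj B) :
    ∑ u : Fin p → Fund.Ix A, ∑ v : Fin q → Fund.Ix B,
      (c fun i => P.bas (bW A) (bW B)
        (Fin.append (fun j => Sum.inl (u j)) (fun j => Sum.inr (v j)) i)) •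
      (wd fun i => (P.bas (bW A) (bW B)).coord
        (Fin.append (fun j => Sum.inl (u j)) (fun j => Sum.inr (v j)) i)) ∈
      algSub P.T (p + q) := by
  have e1 : ∀ (u : Fin p → Fund.Ix A) (v : Fin q → Fund.Ix B),
      (fun i => P.bas (bW A) (bW B)
        (Fin.append (fun j => Sum.inl (u j)) (fun j => Sum.inr (v j)) i)) =
      Fin.append (fun j => pull P.pA (bW A (u j))) (fun j => pull P.pB (bW B (v j))) := by
    intro u v
    funext i
    refine Fin.addCases (fun j => ?_) (fun j => ?_) i
    · rw [Fin.append_left, Fin.append_left, P.bas_inl]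
    · rw [Fin.append_right, Fin.append_right, P.bas_inr]
  have e2 : ∀ (u : Fin p → Fund.Ix A) (v : Fin q → Fund.Ix B),
      (wd fun i => (P.bas (bW A) (bW B)).coord
        (Fin.append (fun j => Sum.inl (u j)) (fun j => Sum.inr (v j)) i)) =
      P.kap p q (wd fun j => (bW A).coord (u j)) (wd fun j => (bW B).coord (v j)) := by
    intro u v
    rw [P.kap_wd]
    congr 1
    funext i
    refine Fin.addCases (fun j => ?_) (fun j => ?_) i
    · rw [Fin.append_left, Fin.append_left, P.coord_inl]
    · rw [Fin.append_right, Fin.append_right, P.coord_inr]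
  simp only [e1, e2]
  refine slice (algSub A p) (algSub B q) (algSub P.T (p + q)) (P.kap p q)
    (fun x hx y hy => P.kap_alg hx hy)
    (fun (u : Fin p → Fund.Ix A) (v : Fin q → Fund.Ix B) => c (Fin.append
      (fun j => pull P.pA (bW A (u j))) (fun j => pull P.pB (bW B (v j)))))
    (fun u => wd fun j => (bW A).coord (u j)) (fun v => wd fun j => (bW B).coord (v j)) ?_ ?_
  · intro v
    have h := wd_expand (bW A) (slA (A := A) c (pull P.pA) fun j => pull P.pB (bW B (v j)))
    have h2 : ∑ u : Fin p → Fund.Ix A, c (Fin.append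
      (fun j => pull P.pA (bW A (u j))) (fun j => pull P.pB (bW B (v j)))) •
        (wd fun j => (bW A).coord (u j)) = (p.factorial : ℂ) •
        slA (A := A) c (pull P.pA) fun j => pull P.pB (bW B (v j)) := by
      rw [h]
      rfl
    show ∑ u : Fin p → Fund.Ix A, _ ∈ _
    rw [h2]
    exact Submodule.smul_mem _ _ (hA _ _ (slA_hodge P hc hi _ fun j => bW_rat B (v j)))
  · intro u
    have h := wd_expand (bW B) (slB (B := B) c (pull P.pB) fun j => pull P.pA (bW A (u j)))
    have h2 : ∑ v : Fin q → Fund.Ix B, c (Fin.append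
      (fun j => pull P.pA (bW A (u j))) (fun j => pull P.pB (bW B (v j)))) •
        (wd fun j => (bW B).coord (v j)) = (q.factorial : ℂ) •
        slB (B := B) c (pull P.pB) fun j => pull P.pA (bW A (u j)) := by
      rw [h]
      rfl
    show ∑ v : Fin q → Fund.Ix B, _ ∈ _
    rw [h2]
    exact Submodule.smul_mem _ _ (hB _ _ (slB_hodge P hc hi _ fun j => bW_rat A (u j)))

/-- KUENNETH. -/
theorem pLe : S_Le := by
  intro A B P m c hc hi hA hB
  have h0 : (m.factorial : ℂ) ≠ 0 := Nat.cast_ne_zero.2 (Nat.factorial_ne_zero m)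
  apply Alg.of_smul h0
  rw [wd_expand (P.bas (bW A) (bW B)) c]
  refine grp (N := (algSub P.T m).toAddSubmonoid) (F := fun s => (c fun i =>
    P.bas (bW A) (bW B) (s i)) • (wd fun i => (P.bas (bW A) (bW B)).coord (s i))) ?_ ?_
  · intro s σ
    have h1 := c.map_perm (fun i => P.bas (bW A) (bW B) (s i)) σ
    have h2 := wd_perm (fun i => (P.bas (bW A) (bW B)).coord (s i)) σ
    show (c fun i => P.bas (bW A) (bW B) (s (σ i))) •
      (wd fun i => (P.bas (bW A) (bW B)).coord (s (σ i))) = _
    rw [h2]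
    have h3 : (c fun i => P.bas (bW A) (bW B) (s (σ i))) =
      Equiv.Perm.sign σ • c fun i => P.bas (bW A) (bW B) (s i) := h1
    rw [h3]
    rcases Int.units_eq_one_or (Equiv.Perm.sign σ) with h | h <;> rw [h] <;> simp
  · intro p q e
    cases e
    exact comp_alg P hc hi hA hB

end HC
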