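import Pool.Agent.Lib.HC.L.Defs

/-!
# PROJECT HC+: products of abelian varieties exist (helper39)

`HC.pL0 : S_L0`: for abelian varieties `A`, `B` the lattice `A.L × B.L` in `A.V × B.V` with the
sum of the Riemann forms.
-/

set_option autoImplicit false

noncomputable section

namespace HC
namespace L0

/-- The product of two lattices is discrete. -/
theorem disc (A B : AV) : DiscreteTopology (A.L.prod B.L) := by
  have e : Topology.IsEmbedding (fun x : A.L.prod B.L => ((⟨x.1.1, x.2.1⟩, ⟨x.1.2, x.2.2⟩) :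
      A.L × B.L)) := by
    refine ⟨?_, ?_⟩
    · refine ⟨?_⟩
      have h1 : Topology.IsInducing (fun p : A.L × B.L => ((p.1.1, p.2.1) : A.V × B.V)) :=
        Topology.IsInducing.subtypeVal.prodMap Topology.IsInducing.subtypeVal
      have h2 : Topology.IsInducing ((fun p : A.L × B.L => ((p.1.1, p.2.1) : A.V × B.V)) ∘
          (fun x : A.L.prod B.L => ((⟨x.1.1, x.2.1⟩, ⟨x.1.2, x.2.2⟩) : A.L × B.L))) :=
        Topology.IsInducing.subtypeVal
      exact (h1.of_comp_iff.1 h2).eq_induced
    · intro x y hxy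
      apply Subtype.ext
      have h1 := congrArg (fun p : A.L × B.L => (p.1.1 : A.V)) hxy
      have h2 := congrArg (fun p : A.L × B.L => (p.2.1 : B.V)) hxy
      exact Prod.ext h1 h2
  exact e.discreteTopology

/-- The product of two lattices spans. -/
theorem span (A B : AV) : Submodule.span ℝ ((A.L.prod B.L : Submodule ℤ (A.V × B.V)) :
    Set (A.V × B.V)) = ⊤ := by
  rw [eq_top_iff]
  rintro ⟨a, b⟩ -
  have ha : a ∈ Submodule.span ℝ (A.L : Set A.V) := by
    rw [A.latt.span_top]
    exact Submodule.mem_top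
  have hb : b ∈ Submodule.span ℝ (B.L : Set B.V) := by
    rw [B.latt.span_top]
    exact Submodule.mem_top
  have h1 : ((a, 0) : A.V × B.V) ∈ Submodule.span ℝ
      ((A.L.prod B.L : Submodule ℤ (A.V × B.V)) : Set (A.V × B.V)) := by
    induction ha using Submodule.span_induction with
    | mem x hx => exact Submodule.subset_span ⟨hx, B.L.zero_mem⟩
    | zero => exact Submodule.zero_mem _
    | add x y _ _ hx hy =>
      have h3 : ((x + y, 0) : A.V × B.V) = (x, 0) + (y, 0) := by
        rw [Prod.mk_add_mk, add_zero]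
      rw [h3]
      exact Submodule.add_mem _ hx hy
    | smul r x _ hx =>
      have h3 : ((r • x, 0) : A.V × B.V) = r • ((x, 0) : A.V × B.V) := by
        rw [Prod.smul_mk, smul_zero]
      rw [h3]
      exact Submodule.smul_mem _ _ hx
  have h2 : ((0, b) : A.V × B.V) ∈ Submodule.span ℝ
      ((A.L.prod B.L : Submodule ℤ (A.V × B.V)) : Set (A.V × B.V)) := by
    induction hb using Submodule.span_induction with
    | mem x hx => exact Submodule.subset_span ⟨A.L.zero_mem, hx⟩
    | zero => exact Submodule.zero_mem _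
    | add x y _ _ hx hy =>
      have h3 : ((0, x + y) : A.V × B.V) = (0, x) + (0, y) := by
        rw [Prod.mk_add_mk, add_zero]
      rw [h3]
      exact Submodule.add_mem _ hx hy
    | smul r x _ hx =>
      have h3 : ((0, r • x) : A.V × B.V) = r • ((0, x) : A.V × B.V) := by
        rw [Prod.smul_mk, smul_zero]
      rw [h3]
      exact Submodule.smul_mem _ _ hx
  have h3 : ((a, b) : A.V × B.V) = (a, 0) + (0, b) := by
    rw [Prod.mk_add_mk, add_zero, zero_add]
  rw [h3]
  exact Submodule.add_mem _ h1 h2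

end L0

/-- **S_L0**: products exist. -/
theorem pL0 : S_L0 := by
  intro A B
  have hd : DiscreteTopology (A.L.prod B.L) := L0.disc A B
  have hl : IsZLattice ℝ (A.L.prod B.L) := ⟨L0.span A B⟩
  obtain ⟨E, hE1, hE2, hE3, hE4⟩ := A.pol
  obtain ⟨F, hF1, hF2, hF3, hF4⟩ := B.pol
  have hsum : ∀ u v : A.V × B.V,
      ((E.compl₁₂ (LinearMap.fst ℝ A.V B.V) (LinearMap.fst ℝ A.V B.V)) +
        (F.compl₁₂ (LinearMap.snd ℝ A.V B.V) (LinearMap.snd ℝ A.V B.V))) u v =
        E u.1 v.1 + F u.2 v.2 := fun u v => rfl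
  refine ⟨{ T := { V := A.V × B.V, L := A.L.prod B.L, pol := ?_ },
            ψ := LinearEquiv.refl ℂ (A.V × B.V), lat := fun v => Iff.rfl }⟩
  refine ⟨(E.compl₁₂ (LinearMap.fst ℝ A.V B.V) (LinearMap.fst ℝ A.V B.V)) +
        (F.compl₁₂ (LinearMap.snd ℝ A.V B.V) (LinearMap.snd ℝ A.V B.V)), ?_, ?_, ?_, ?_⟩
  · rintro u ⟨hu1, hu2⟩ v ⟨hv1, hv2⟩
    obtain ⟨n, hn⟩ := hE1 u.1 hu1 v.1 hv1
    obtain ⟨k, hk⟩ := hF1 u.2 hu2 v.2 hv2
    refine ⟨n + k, ?_⟩
    rw [hsum, hn, hk]
    push_cast
    rfl
  · intro u v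
    rw [hsum, hsum, hE2 u.1 v.1, hF2 u.2 v.2]
    ring
  · intro u v
    rw [hsum, hsum, Prod.smul_fst, Prod.smul_fst, Prod.smul_snd, Prod.smul_snd, hE3, hF3]
  · rintro ⟨a, b⟩ hv
    rw [hsum, Prod.smul_fst, Prod.smul_snd]
    by_cases ha : a = 0
    · by_cases hb : b = 0
      · subst ha
        subst hb
        exact absurd rfl hv
      · have h1 := hF4 b hb
        subst ha
        simp only [smul_zero, map_zero, zero_add]
        exact h1
    · have h1 := hE4 a ha
      by_cases hb : b = 0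
      · subst hb
        simp only [smul_zero, map_zero, add_zero]
        exact h1
      · exact add_pos h1 (hF4 b hb)

end HC
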