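import Pool.Agent.Lib.HC.L.Defs

/-!
# PROJECT HC+, statement (c1) (helper28)

`tLc1 : S_Lc1`: every real endomorphism is a real combination of endomorphisms which map the
lattice into itself.
-/

set_option autoImplicit false

noncomputable section

namespace HC.L

/-- Every real endomorphism is a real combination of rational endomorphisms. -/
theorem span_ratEnd (T : AV) (Z : Module.End ℝ T.V) : Z ∈ Submodule.span ℝ {X | RatEnd T X} := by
  classical
  have hfin : Module.Finite ℤ T.L := ZLattice.module_finite ℝ T.L
  have hfree : Module.Free ℤ T.L := ZLattice.module_free ℝ T.L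
  let b := Module.Free.chooseBasis ℤ T.L
  let B := b.ofZLatticeBasis ℝ T.L
  have hB : ∀ j, B j = b j := fun j => Module.Basis.ofZLatticeBasis_apply ℝ T.L b j
  have key : Z = ∑ i, ∑ j, B.repr (Z (B j)) i • (B.coord j).smulRight (B i) := by
    refine B.ext fun k => ?_
    simp only [LinearMap.sum_apply, LinearMap.smul_apply, LinearMap.smulRight_apply,
      Module.Basis.coord_apply, Module.Basis.repr_self]
    have h1 : ∀ i, ∑ j, B.repr (Z (B j)) i • (Finsupp.single k (1 : ℝ)) j • B i =
        B.repr (Z (B k)) i • B i := by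
      intro i
      rw [Finset.sum_eq_single k]
      · rw [Finsupp.single_eq_same, one_smul]
      · intro j _ hj
        rw [Finsupp.single_eq_of_ne hj, zero_smul, smul_zero]
      · intro h
        exact absurd (Finset.mem_univ k) h
    simp only [h1]
    exact (B.sum_repr (Z (B k))).symm
  rw [key]
  refine Submodule.sum_mem _ fun i _ => Submodule.sum_mem _ fun j _ =>
    Submodule.smul_mem _ _ (Submodule.subset_span ?_)
  intro v hv
  refine ⟨1, one_ne_zero, ?_⟩
  have h2 : B.repr v j = (b.repr ⟨v, hv⟩ j : ℤ) := by
    exact b.ofZLatticeBasis_repr_apply ℝ T.L ⟨v, hv⟩ j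
  rw [one_smul, LinearMap.smulRight_apply, Module.Basis.coord_apply, h2, hB,
    Int.cast_smul_eq_zsmul]
  exact T.L.smul_mem _ (b i).2

/-- (c1) -/
theorem tLc1 : S_Lc1 := fun T => span_ratEnd T (mulI T)

end HC.L
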