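import Pool.Agent.Lib.HC.L.Defs
import Pool.Agent.Lib.HC.J.Tor2

/-!
# PROJECT HC+, statement (c2) (helper28)

`tLc2 : S_Lc2`: for `A` of CM type the multiplication by `i` is a real combination of commuting
rational endomorphisms: the elements of the product of the CM fields. The lattice spans `A.V` over
`ℝ`, and its vectors are of the form `(φ (y_i))`.
-/

set_option autoImplicit false

noncomputable section

namespace HC.L

theorem rsm {A : AV} {S : Type} (ψ : A.V ≃ₗ[ℂ] (S → ℂ)) (r : ℝ) (v : A.V) :
    ψ (r • v) = r • ψ v :=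
  (ψ.toLinearMap.restrictScalars ℝ).map_smul r v

/-- The endomorphism with eigenvalues `w s`. -/
def dg {A : AV} {S : Type} (ψ : A.V ≃ₗ[ℂ] (S → ℂ)) : (S → ℂ) →ₗ[ℝ] Module.End ℝ A.V where
  toFun w :=
    { toFun := fun v => ψ.symm (fun s => w s * ψ v s)
      map_add' := by
        intro u v
        rw [← map_add]
        congr 1
        funext s
        simp [mul_add]
      map_smul' := by
        intro r v
        apply ψ.injective
        rw [RingHom.id_apply, rsm, LinearEquiv.apply_symm_apply, rsm, LinearEquiv.apply_symm_apply]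
        funext s
        simp only [Pi.smul_apply, Complex.real_smul]
        ring }
  map_add' w w' := by
    ext v
    show ψ.symm _ = ψ.symm _ + ψ.symm _
    rw [← map_add]
    congr 1
    funext s
    simp [add_mul]
  map_smul' r w := by
    ext v
    apply ψ.injective
    show ψ (ψ.symm _) = ψ (r • ψ.symm _)
    rw [rsm, LinearEquiv.apply_symm_apply, LinearEquiv.apply_symm_apply]
    funext s
    simp only [Pi.smul_apply, Complex.real_smul]
    ring

theorem dg_apply {A : AV} {S : Type} (ψ : A.V ≃ₗ[ℂ] (S → ℂ)) (w : S → ℂ) (v : A.V) :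
    ψ (dg ψ w v) = fun s => w s * ψ v s :=
  LinearEquiv.apply_symm_apply ψ _

/-- (c2) -/
theorem tLc2 : S_Lc2 := by
  classical
  rintro A ⟨n, E, i1, i2, i3, Φ, hΦ, ψ, hL⟩
  refine ⟨Set.range fun x : ∀ i, E i => dg ψ (J.emb Φ x), ?_, ?_, ?_⟩
  · rintro _ ⟨x, rfl⟩ v hv
    obtain ⟨y, hy⟩ := hL v hv
    obtain ⟨N, hN, h⟩ := J.exists_mul_mem hΦ ψ hL (x * y) (w := dg ψ (J.emb Φ x) v) (by
      rw [dg_apply]
      funext s
      rw [hy s.1 s.2]
      show s.2.1 (x s.1) * s.2.1 (y s.1) = s.2.1 (x s.1 * y s.1)
      rw [map_mul])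
    exact ⟨N, hN.ne', h⟩
  · rintro _ ⟨x, rfl⟩ _ ⟨y, rfl⟩
    ext v
    apply ψ.injective
    rw [Module.End.mul_apply, Module.End.mul_apply, dg_apply, dg_apply, dg_apply, dg_apply]
    funext s
    ring
  · have hspan : Submodule.span ℝ (A.L : Set A.V) = ⊤ := IsZLattice.span_top
    have h1 : ∀ v ∈ Submodule.span ℝ (A.L : Set A.V), dg ψ (ψ v) ∈ Submodule.span ℝ
        (Set.range fun x : ∀ i, E i => dg ψ (J.emb Φ x)) := by
      intro v hv
      induction hv using Submodule.span_induction with
      | mem v hv =>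
        obtain ⟨y, hy⟩ := hL v hv
        refine Submodule.subset_span ⟨y, ?_⟩
        have : J.emb Φ y = ψ v := by
          funext s
          exact (hy s.1 s.2).symm
        show dg ψ (J.emb Φ y) = _
        rw [this]
      | zero =>
        rw [map_zero, map_zero]
        exact Submodule.zero_mem _
      | add u v _ _ hu hv =>
        rw [map_add, map_add]
        exact Submodule.add_mem _ hu hv
      | smul r v _ hv =>
        rw [rsm, map_smul]
        exact Submodule.smul_mem _ r hv
    have h2 := h1 (ψ.symm fun _ => Complex.I) (hspan ▸ Submodule.mem_top)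
    have h3 : dg ψ (ψ (ψ.symm fun _ => Complex.I)) = mulI A := by
      ext v
      apply ψ.injective
      rw [dg_apply, LinearEquiv.apply_symm_apply]
      show _ = ψ (Complex.I • v)
      rw [map_smul]
      rfl
    rw [← h3]
    exact h2

end HC.L
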