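import Pool.Agent.Lib.HC.L.Defs

/-!
# HC+, step (d): a class killed by the two factors of `i` is invariant under the two circles (author helper21)
-/

set_option autoImplicit false

noncomputable section

namespace HC

open ComplexConjugate

namespace Ld

variable {T : AV}

/-- The part of `a ∘ p` with `b (i v) = t b(v)`. -/
def pt (p : T.V →ₗ[ℂ] T.V) (t : ℂ) (a : T.V →ₗ[ℝ] ℂ) : T.V →ₗ[ℝ] ℂ :=
  (1 / 2 : ℂ) • (a ∘ₗ (p.restrictScalars ℝ)) - (t / 2) • (a ∘ₗ ((Complex.I • p).restrictScalars ℝ))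

theorem pt_apply (p : T.V →ₗ[ℂ] T.V) (t : ℂ) (a : T.V →ₗ[ℝ] ℂ) (v : T.V) :
    pt p t a v = (a (p v) - t * a (Complex.I • p v)) / 2 := by
  change (1 / 2 : ℂ) * a (p v) - (t / 2) * a (Complex.I • p v) = _
  ring

theorem pt_p {p : T.V →ₗ[ℂ] T.V} (hp : ∀ v, p (p v) = p v) (t : ℂ) (a : T.V →ₗ[ℝ] ℂ) (v : T.V) :
    pt p t a (p v) = pt p t a v := by
  rw [pt_apply, pt_apply, hp]

theorem pt_I (p : T.V →ₗ[ℂ] T.V) {t : ℂ} (ht : t * t = -1) (a : T.V →ₗ[ℝ] ℂ) (v : T.V) :
    pt p t a (Complex.I • v) = t * pt p t a v := by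
  rw [pt_apply, pt_apply, map_smul, smul_smul, Complex.I_mul_I, neg_smul, one_smul, map_neg]
  linear_combination (a (Complex.I • p v) / 2) * ht

/-- The value at `u v`. -/
theorem val_smul {b : T.V →ₗ[ℝ] ℂ} {t : ℂ} (hb : ∀ v, b (Complex.I • v) = t * b v) (u : ℂ) (v : T.V) :
    b (u • v) = (u.re + t * u.im) * b v := by
  have h1 : u • v = u.re • v + u.im • (Complex.I • v) := by
    have h2 : (u.im • (Complex.I • v) : T.V) = ((u.im : ℂ) * Complex.I) • v := by
      rw [mul_smul, Complex.coe_smul]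
    rw [h2, ← Complex.coe_smul, ← add_smul, Complex.re_add_im]
  rw [h1, map_add, map_smul, map_smul, hb]
  simp only [Complex.real_smul]
  ring

end Ld

open Ld in
theorem pLd : S_Ld := by
  classical
  intro A B P m c ⟨hA, hB⟩ u w hu hw φ hφ
  let T : AV := P.T
  let pA : T.V →ₗ[ℂ] T.V := P.ψ.symm.toLinearMap ∘ₗ (LinearMap.inl ℂ A.V B.V) ∘ₗ (LinearMap.fst ℂ A.V B.V) ∘ₗ
    P.ψ.toLinearMap
  let pB : T.V →ₗ[ℂ] T.V := P.ψ.symm.toLinearMap ∘ₗ (LinearMap.inr ℂ A.V B.V) ∘ₗ (LinearMap.snd ℂ A.V B.V) ∘ₗ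
    P.ψ.toLinearMap
  have epA : ∀ v, pA v = P.ψ.symm ((P.ψ v).1, 0) := fun v => rfl
  have epB : ∀ v, pB v = P.ψ.symm (0, (P.ψ v).2) := fun v => rfl
  have hAA : ∀ v, pA (pA v) = pA v := fun v => by rw [epA, epA, LinearEquiv.apply_symm_apply]
  have hBB : ∀ v, pB (pB v) = pB v := fun v => by rw [epB, epB, LinearEquiv.apply_symm_apply]
  have hsum : ∀ v, pA v + pB v = v := fun v => by
    rw [epA, epB, ← map_add, Prod.mk_add_mk, add_zero, zero_add, Prod.mk.eta, LinearEquiv.symm_apply_apply]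
  let XA : Module.End ℝ T.V := (Complex.I • pA).restrictScalars ℝ
  let XB : Module.End ℝ T.V := (Complex.I • pB).restrictScalars ℝ
  have eXA : ∀ v, XA v = Complex.I • pA v := fun v => rfl
  have eXB : ∀ v, XB v = Complex.I • pB v := fun v => rfl
  have kA : ∀ a, lieAct XA c a = 0 := hA XA (fun v => by
    rw [eXA, map_smul, epA, LinearEquiv.apply_symm_apply, Prod.smul_mk, smul_zero])
  have kB : ∀ a, lieAct XB c a = 0 := hB XB (fun v => by
    rw [eXB, map_smul, epB, LinearEquiv.apply_symm_apply, Prod.smul_mk, smul_zero])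
  have hAB : ∀ v, pA (pB v) = 0 := fun v => by
    rw [epA, epB, LinearEquiv.apply_symm_apply]
    change P.ψ.symm (0, 0) = 0
    exact map_zero P.ψ.symm
  have hBA : ∀ v, pB (pA v) = 0 := fun v => by
    rw [epA, epB, LinearEquiv.apply_symm_apply]
    change P.ψ.symm (0, 0) = 0
    exact map_zero P.ψ.symm
  have hφA : ∀ v, pA (φ v) = u • pA v := fun v => by
    rw [epA, epA, hφ, ← map_smul, Prod.smul_mk, smul_zero]
  have hφB : ∀ v, pB (φ v) = w • pB v := fun v => by
    rw [epB, epB, hφ, ← map_smul, Prod.smul_mk, smul_zero]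
  -- the four parts
  let π : Fin 4 → (T.V →ₗ[ℝ] ℂ) → (T.V →ₗ[ℝ] ℂ) :=
    ![pt pA Complex.I, pt pA (-Complex.I), pt pB Complex.I, pt pB (-Complex.I)]
  let lam : Fin 4 → ℂ := ![Complex.I, -Complex.I, 0, 0]
  let mu : Fin 4 → ℂ := ![0, 0, Complex.I, -Complex.I]
  let chi : Fin 4 → ℂ := ![u, conj u, w, conj w]
  have hII : Complex.I * Complex.I = -1 := Complex.I_mul_I
  have hII' : -Complex.I * -Complex.I = -1 := by rw [neg_mul_neg, hII]
  have hπ : ∀ a, ∑ ε, π ε a = a := by
    intro a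
    ext v
    rw [Fin.sum_univ_four]
    change pt pA Complex.I a v + pt pA (-Complex.I) a v + pt pB Complex.I a v + pt pB (-Complex.I) a v = a v
    rw [pt_apply, pt_apply, pt_apply, pt_apply]
    have h1 : a v = a (pA v) + a (pB v) := by rw [← map_add, hsum]
    rw [h1]
    ring
  have ub : ∀ z : ℂ, (z.re : ℂ) + Complex.I * z.im = z := fun z => by
    rw [mul_comm, Complex.re_add_im]
  have ub' : ∀ z : ℂ, (z.re : ℂ) + -Complex.I * z.im = conj z := fun z => by
    apply Complex.ext <;> simp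
  -- the general facts
  have gA : ∀ (t : ℂ), t * t = -1 → ∀ a, (pt pA t a) ∘ₗ XA = t • pt pA t a ∧ (pt pA t a) ∘ₗ XB = (0 : ℂ) • pt pA t a ∧
      pull φ (pt pA t a) = ((u.re : ℂ) + t * u.im) • pt pA t a := by
    intro t ht a
    refine ⟨?_, ?_, ?_⟩
    · ext v
      change pt pA t a (XA v) = t * pt pA t a v
      rw [eXA, pt_I pA ht, pt_p hAA]
    · ext v
      change pt pA t a (XB v) = 0 * pt pA t a v
      rw [eXB, pt_I pA ht, ← pt_p hAA t a (pB v), hAB, map_zero, mul_zero, zero_mul]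
    · ext v
      change pt pA t a (φ v) = ((u.re : ℂ) + t * u.im) * pt pA t a v
      rw [← pt_p hAA t a (φ v), hφA, val_smul (fun v => pt_I pA ht a v), pt_p hAA]
  have gB : ∀ (t : ℂ), t * t = -1 → ∀ a, (pt pB t a) ∘ₗ XA = (0 : ℂ) • pt pB t a ∧ (pt pB t a) ∘ₗ XB = t • pt pB t a ∧
      pull φ (pt pB t a) = ((w.re : ℂ) + t * w.im) • pt pB t a := by
    intro t ht a
    refine ⟨?_, ?_, ?_⟩
    · ext v
      change pt pB t a (XA v) = 0 * pt pB t a v
      rw [eXA, pt_I pB ht, ← pt_p hBB t a (pA v), hBA, map_zero, mul_zero, zero_mul]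
    · ext v
      change pt pB t a (XB v) = t * pt pB t a v
      rw [eXB, pt_I pB ht, pt_p hBB]
    · ext v
      change pt pB t a (φ v) = ((w.re : ℂ) + t * w.im) * pt pB t a v
      rw [← pt_p hBB t a (φ v), hφB, val_smul (fun v => pt_I pB ht a v), pt_p hBB]
  have key : ∀ (ε : Fin 4) (a : T.V →ₗ[ℝ] ℂ), (π ε a) ∘ₗ XA = lam ε • π ε a ∧ (π ε a) ∘ₗ XB = mu ε • π ε a ∧
      pull φ (π ε a) = chi ε • π ε a := by
    intro ε a
    fin_cases ε
    · have h := gA Complex.I hII a
      rw [ub] at h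
      exact h
    · have h := gA (-Complex.I) hII' a
      rw [ub'] at h
      exact h
    · have h := gB Complex.I hII a
      rw [ub] at h
      exact h
    · have h := gB (-Complex.I) hII' a
      rw [ub'] at h
      exact h
  -- the eigenvalues on tuples
  have lie : ∀ (X : Module.End ℝ T.V) (l : Fin m → ℂ) (b : Fin m → (T.V →ₗ[ℝ] ℂ)),
      (∀ i, b i ∘ₗ X = l i • b i) → lieAct X c b = (∑ i, l i) * c b := by
    intro X l b hb
    unfold lieAct
    rw [Finset.sum_mul]
    refine Finset.sum_congr rfl (fun i _ => ?_)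
    rw [hb i, AlternatingMap.map_update_smul, Function.update_eq_self, smul_eq_mul]
  have fib : ∀ (s : Fin m → Fin 4) (f : Fin 4 → ℂ), ∑ i, f (s i) =
      ∑ ε, ((Finset.univ.filter (fun i => s i = ε)).card : ℂ) * f ε := by
    intro s f
    rw [← Finset.sum_fiberwise (s := Finset.univ) (g := s) (f := fun i => f (s i))]
    refine Finset.sum_congr rfl (fun ε _ => ?_)
    rw [Finset.sum_congr rfl (g := fun _ => f ε) (fun i hi => by rw [(Finset.mem_filter.1 hi).2]),
      Finset.sum_const, nsmul_eq_mul]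
  have fibp : ∀ (s : Fin m → Fin 4) (f : Fin 4 → ℂ), ∏ i, f (s i) =
      ∏ ε, f ε ^ (Finset.univ.filter (fun i => s i = ε)).card := by
    intro s f
    rw [← Finset.prod_fiberwise (s := Finset.univ) (g := s) (f := fun i => f (s i))]
    refine Finset.prod_congr rfl (fun ε _ => ?_)
    rw [Finset.prod_congr rfl (g := fun _ => f ε) (fun i hi => by rw [(Finset.mem_filter.1 hi).2]),
      Finset.prod_const]
  have huc : u * conj u = 1 := by rw [Complex.mul_conj, Complex.normSq_eq_norm_sq, hu]; norm_num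
  have hwc : w * conj w = 1 := by rw [Complex.mul_conj, Complex.normSq_eq_norm_sq, hw]; norm_num
  have main : ∀ (s : Fin m → Fin 4) (a : Fin m → (T.V →ₗ[ℝ] ℂ)),
      c (fun i => pull φ (π (s i) (a i))) = c (fun i => π (s i) (a i)) := by
    intro s a
    have e1 : (fun i => pull φ (π (s i) (a i))) = fun i => chi (s i) • π (s i) (a i) :=
      funext fun i => (key (s i) (a i)).2.2
    rw [e1]
    have e2 := c.map_smul_univ (fun i => chi (s i)) (fun i => π (s i) (a i))
    rw [e2]
    by_cases h0 : c (fun i => π (s i) (a i)) = 0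
    · rw [h0, smul_zero]
    · have h1 := lie XA (fun i => lam (s i)) (fun i => π (s i) (a i)) (fun i => (key (s i) (a i)).1)
      rw [kA] at h1
      have h2 := lie XB (fun i => mu (s i)) (fun i => π (s i) (a i)) (fun i => (key (s i) (a i)).2.1)
      rw [kB] at h2
      have h3 : ∑ i, lam (s i) = 0 := by
        rcases mul_eq_zero.1 h1.symm with h | h
        · exact h
        · exact absurd h h0
      have h4 : ∑ i, mu (s i) = 0 := by
        rcases mul_eq_zero.1 h2.symm with h | h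
        · exact h
        · exact absurd h h0
      rw [fib, Fin.sum_univ_four] at h3 h4
      set n0 := (Finset.univ.filter (fun i => s i = 0)).card with hn0
      set n1 := (Finset.univ.filter (fun i => s i = 1)).card with hn1
      set n2 := (Finset.univ.filter (fun i => s i = 2)).card with hn2
      set n3 := (Finset.univ.filter (fun i => s i = 3)).card with hn3
      have h5 : (n0 : ℂ) * Complex.I + n1 * -Complex.I + n2 * 0 + n3 * 0 = 0 := h3
      have h6 : (n0 : ℂ) * 0 + n1 * 0 + n2 * Complex.I + n3 * -Complex.I = 0 := h4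
      have h7 : (n0 : ℂ) = n1 := by
        have h8 : ((n0 : ℂ) - n1) * Complex.I = 0 := by linear_combination h5
        rcases mul_eq_zero.1 h8 with h | h
        · exact sub_eq_zero.1 h
        · exact absurd h Complex.I_ne_zero
      have h9 : (n2 : ℂ) = n3 := by
        have h8 : ((n2 : ℂ) - n3) * Complex.I = 0 := by linear_combination h6
        rcases mul_eq_zero.1 h8 with h | h
        · exact sub_eq_zero.1 h
        · exact absurd h Complex.I_ne_zero
      have h7' : n0 = n1 := by exact_mod_cast h7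
      have h9' : n2 = n3 := by exact_mod_cast h9
      have h10 : ∏ i, chi (s i) = 1 := by
        rw [fibp, Fin.prod_univ_four]
        change u ^ n0 * conj u ^ n1 * w ^ n2 * conj w ^ n3 = 1
        rw [← h7', ← h9', ← mul_pow, huc, one_pow, one_mul, ← mul_pow, hwc, one_pow]
      rw [h10, one_smul]
  ext a
  change c (fun i => pull φ (a i)) = c a
  have e1 : a = fun i => ∑ ε, π ε (a i) := funext fun i => (hπ (a i)).symm
  have e2 : (fun i => pull φ (a i)) = fun i => ∑ ε, pull φ (π ε (a i)) := by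
    funext i
    rw [← map_sum, hπ]
  have e3 : c a = c (fun i => ∑ ε, π ε (a i)) := by rw [← e1]
  rw [e2, e3]
  have e4 := c.toMultilinearMap.map_sum (fun (i : Fin m) (ε : Fin 4) => pull φ (π ε (a i)))
  have e5 := c.toMultilinearMap.map_sum (fun (i : Fin m) (ε : Fin 4) => π ε (a i))
  change c _ = _ at e4
  change c _ = _ at e5
  rw [e4, e5]
  exact Finset.sum_congr rfl (fun s _ => main s a)

end HC
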