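import Pool.Agent.Lib.HC.L.B
import Pool.Agent.Lib.HC.L.L0
import Pool.Agent.Lib.HC.L.La
import Pool.Agent.Lib.HC.L.Lc1
import Pool.Agent.Lib.HC.L.Lc2
import Pool.Agent.Lib.HC.L.Lc3
import Pool.Agent.Lib.HC.L.Ld
import Pool.Agent.Lib.HC.L.Le
import Pool.Agent.Lib.HC.L.Lf

/-!
# PROJECT HC+: the assembly of part 2 (helper58)

* `part2_of (h0 : S_L0) (hCM : HodgeCM) : Part2`.
* `prod_HCj`: the Hodge conjecture for a product, if all Hodge classes are invariant under the two
  circles.
-/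

set_option autoImplicit false

noncomputable section

namespace HC

/-- A class of `A × B` (`A` of CM type, `B` with perfect Hodge Lie algebra and the Hodge
conjecture). -/
theorem Pd_HCj (hCM : HodgeCM) {A B : AV} (P : Pd A B) (hA : IsCM A) (hB : SSH B)
    (hH : HCj B) : HCj P.T := by
  intro m c hc
  have h3 := pLc3 L.pLa L.pLa' tLb L.tLc1 L.tLc2 A B P hA hB m c hc
  exact L.tLe A B P m c hc (pLd A B P m c h3) (hCM A hA) hH

/-- The Hodge conjecture for an abelian variety isogenous to a product, from that for a copy of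
the product. -/
theorem HCj_of_isProd {A B T : AV} (P : Pd A B) (hT : IsProd T A B) (hP : HCj P.T) : HCj T := by
  obtain ⟨ψ, hψ⟩ := hT
  refine pLf T P.T ⟨ψ.trans P.ψ.symm, fun v hv => ?_⟩ hP
  obtain ⟨N, hN, h1, h2⟩ := hψ v hv
  refine ⟨N, hN, (P.lat _).2 ?_⟩
  have h3 : P.ψ (N • (ψ.trans P.ψ.symm) v) = N • ψ v := by
    rw [map_nsmul, LinearEquiv.trans_apply, LinearEquiv.apply_symm_apply]
  rw [h3]
  exact ⟨h1, h2⟩

/-- **Part 2.** -/
theorem part2_of (h0 : S_L0) (hCM : HodgeCM) : Part2 := by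
  intro A B T hA hB hH hT
  obtain ⟨P⟩ := h0 A B
  exact HCj_of_isProd P hT (Pd_HCj hCM P hA hB hH)

/-- **Part 2** from the Hodge conjecture for abelian varieties of CM type. -/
theorem tPart2 (hCM : HodgeCM) : Part2 := part2_of pL0 hCM

end HC
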